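import Pool.Agent.P.MP_7cb106_nt.Ty.Jac

/-! The mass of an irreducible character on elements whose blocks are not coprime. -/

set_option autoImplicit false
set_option linter.unusedSectionVars false

namespace Pool.Agent.P.MP_7cb106_nt.Ty

open Module Representation Finset IsLocalRing
open scoped ComplexConjugate Classical

variable {R I B U : Type} [CommRing R] [Fintype I] [DecidableEq I] {b : I → B}

/-- A nonzero matrix in block position `(i, j)` commutes with `x`. -/
def Bad (i j : B) (x : Levi R b) : Prop := ∃ A : Matrix I I R, A ≠ 0 ∧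
  Supp (fun s t => b s = i ∧ b t = j) A ∧ A * x.val.val = x.val.val * A

lemma bad_of_not_good {x : Levi R b} (h : ¬ Good x) : ∃ i j, i ≠ j ∧ Bad i j x := by
  simp only [Good, InD, Supp, not_forall] at h
  obtain ⟨A, h1, s, t, h2, h3⟩ := h
  have hd : ∀ i, dg R (b · = i) * x.val.val = x.val.val * dg R (b · = i) := fun i =>
    dg_comm (fun s s' e => by rw [e]) x.2
  refine ⟨b s, b t, h2, dg R (b · = b s) * A * dg R (b · = b t), fun e => h3 ?_,
    fun u v e => ?_, ?_⟩
  · simpa [dg_mul, mul_dg] using congrFun (congrFun e s) t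
  · rw [mul_dg, dg_mul]
    split_ifs with h h'
    exacts [absurd ⟨h', h⟩ e, rfl, rfl]
  · rw [mul_assoc, hd, ← mul_assoc, mul_assoc _ A, h1, ← mul_assoc, hd]
    simp only [mul_assoc]

/-- The scalar `z` on the block `j`. -/
noncomputable def sc (b : I → B) (j : B) (z : Rˣ) : Levi R b :=
  ⟨⟨Matrix.diagonal fun s => ((if b s = j then z else 1 : Rˣ) : R),
    Matrix.diagonal fun s => ((if b s = j then z else 1 : Rˣ)⁻¹ : Rˣ), by simp, by simp⟩,
    fun _ _ h => Matrix.diagonal_apply_ne _ fun e => h (congrArg b e)⟩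

lemma sc_central (j : B) (z : Rˣ) (y : Levi R b) : sc b j z * y = y * sc b j z :=
  levi_ext fun s t => by
    simp only [Subgroup.coe_mul, Units.val_mul, sc, Matrix.diagonal_mul, Matrix.mul_diagonal]
    by_cases h : b s = b t
    · rw [h, mul_comm]
    · rw [y.2 s t h, mul_zero, zero_mul]

lemma exists_poly [Nontrivial R] {i j : B} (hij : i ≠ j) (x : Levi R b) :
    ∃ P : Polynomial R, P.Monic ∧ P.natDegree = #{p : I × I | b p.1 = i ∧ b p.2 = j} ∧
      ∀ z : Rˣ, Bad i j (sc b j z * x) → ¬ IsUnit (P.eval z.val) := by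
  let J := {p : I × I // b p.1 = i ∧ b p.2 = j}
  let ex : (J → R) →ₗ[R] Matrix I I R :=
    { toFun := fun a => Matrix.of fun s t => if h : b s = i ∧ b t = j then a ⟨(s, t), h⟩ else 0
      map_add' := fun a a' => by ext s t; by_cases h : b s = i ∧ b t = j <;> simp [h]
      map_smul' := fun c a => by ext s t; by_cases h : b s = i ∧ b t = j <;> simp [h] }
  let re : Matrix I I R →ₗ[R] (J → R) :=
    { toFun := fun A p => A p.1.1 p.1.2, map_add' := fun _ _ => rfl, map_smul' := fun _ _ => rfl }
  let Φ : (J → R) →ₗ[R] (J → R) :=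
    re ∘ₗ LinearMap.mulRight R x.val⁻¹.val ∘ₗ LinearMap.mulLeft R x.val.val ∘ₗ ex
  refine ⟨Φ.charpoly, Φ.charpoly_monic, ?_, ?_⟩
  · rw [LinearMap.charpoly_natDegree, finrank_fintype_fun_eq_card, Fintype.card_subtype]
  rintro z ⟨A, h0, h1, h2⟩ hu
  have h3 : ex (re A) = A := by
    ext s t
    by_cases h : b s = i ∧ b t = j
    · exact dif_pos h
    · exact (dif_neg h).trans (h1 s t h).symm
  have h4 : x.val.val * A = z.val • (A * x.val.val) := by
    have e1 : A * (sc b j z).val.val = z.val • A := by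
      ext s t
      by_cases h : b t = j
      · simp [sc, h, mul_comm]
      · simp [sc, h1 s t fun e => h e.2]
    have e2 : (sc b j z).val.val * (x.val.val * A) = x.val.val * A := by
      ext s t
      by_cases h : b s = j
      · simp [sc, Supp.mul (S := fun s t => b s = b t) (S'' := fun s _ => b s = i) x.2 h1
          (fun s u t e e' => e.trans e'.1) s t fun e => hij (e.symm.trans h)]
      · simp [sc, h]
    rw [Subgroup.coe_mul, Units.val_mul, ← mul_assoc, e1, mul_assoc, e2, smul_mul_assoc] at h2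
    exact h2.symm
  have h5 : Φ (re A) = z.val • re A := by
    simp only [Φ, LinearMap.comp_apply, h3, LinearMap.mulLeft_apply, LinearMap.mulRight_apply, h4,
      Units.mul_inv_cancel_right, map_smul]
  have h6 := Module.End.aeval_apply_of_mem_apply_eq_smul (p := Φ.charpoly) h5
  rw [LinearMap.aeval_self_charpoly, LinearMap.zero_apply, eq_comm, hu.smul_eq_zero] at h6
  exact h0 (by rw [← h3, h6, map_zero])

variable [Fintype (GL I R)] [AddCommGroup U] [Module ℂ U] [FiniteDimensional ℂ U]

lemma bad_mass [IsLocalRing R] [Finite (ResidueField R)] (lam : Representation ℂ (Levi R b) U)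
    [lam.IsIrreducible] {i j : B} (hij : i ≠ j) :
    (Nat.card (ResidueField R) - 1 : ℝ) * ∑ y with Bad i j y, ‖lam.character y‖ ^ 2 ≤
      #{p : I × I | b p.1 = i ∧ b p.2 = j} * Fintype.card (Levi R b) := by
  have := Fintype.ofFinite (ResidueField R)
  have h0 : ∀ a : ResidueField R, ∃ z : Rˣ, a ≠ 0 → residue R z = a := fun a => by
    obtain ⟨z, rfl⟩ := residue_surjective a
    by_cases h : IsUnit z
    · exact ⟨h.unit, fun _ => rfl⟩
    · exact ⟨1, fun e => absurd ((residue_ne_zero_iff_isUnit z).1 e) h⟩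
  choose z hz using h0
  have h1 : ∀ a, ∑ y with Bad i j y, ‖lam.character y‖ ^ 2 =
      ∑ y, if Bad i j (sc b j (z a) * y) then ‖lam.character y‖ ^ 2 else 0 := fun a => by
    rw [sum_filter]
    refine (Fintype.sum_equiv (Equiv.mulLeft (sc b j (z a))) _ _ fun y => ?_).symm
    rw [Equiv.coe_mulLeft, norm_char_central lam (sc_central j (z a))]
  have h2 : (Nat.card (ResidueField R) - 1 : ℝ) = #(univ.erase (0 : ResidueField R)) := by
    rw [card_erase_of_mem (mem_univ _), card_univ, Nat.cast_sub Fintype.card_pos,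
      Nat.card_eq_fintype_card, Nat.cast_one]
  rw [h2, ← nsmul_eq_mul, ← sum_const, sum_congr rfl fun a _ => h1 a, sum_comm,
    ← sum_char_norm lam, mul_sum]
  refine sum_le_sum fun y _ => ?_
  rw [← sum_filter, sum_const, nsmul_eq_mul]
  obtain ⟨P, p1, p2, p3⟩ := exists_poly hij y
  refine mul_le_mul_of_nonneg_right (Nat.cast_le.2 ?_) (sq_nonneg _)
  rw [← p2, ← p1.natDegree_map (residue R)]
  refine Polynomial.card_le_degree_of_subset_roots fun a ha => ?_
  simp only [mem_val, mem_filter, mem_erase, mem_univ, and_true] at ha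
  rw [Polynomial.mem_roots (p1.map _).ne_zero, Polynomial.IsRoot, ← hz a ha.1,
    Polynomial.eval_map_apply]
  by_contra h
  exact p3 _ ha.2 ((residue_ne_zero_iff_isUnit _).1 h)

end Pool.Agent.P.MP_7cb106_nt.Ty
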