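import Mathlib

/-! Characters of finite groups: conjugation, Schur factorisation, splitting, Bessel. -/

set_option autoImplicit false
set_option linter.unusedSectionVars false

namespace Pool.Agent.P.MP_7cb106_nt.Ty

open Module Representation Finset
open scoped ComplexConjugate ComplexOrder Matrix Classical

variable {G U V : Type} [Group G] [Fintype G] [AddCommGroup U] [Module ℂ U]
  [FiniteDimensional ℂ U] [AddCommGroup V] [Module ℂ V] [FiniteDimensional ℂ V]

lemma char_inv (ρ : Representation ℂ G V) (g : G) : ρ.character g⁻¹ = conj (ρ.character g) := by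
  let c := Module.finBasis ℂ V
  let A : G →* Matrix (Fin (finrank ℂ V)) (Fin (finrank ℂ V)) ℂ :=
    (LinearMap.toMatrixAlgEquiv c).toMonoidHom.comp ρ
  have hA : ∀ x, ρ.character x = (A x).trace := fun x => LinearMap.trace_eq_matrix_trace ℂ c _
  set H := ∑ x, (A x)ᴴ * A x with hH
  have h1 : H.PosDef := by
    rw [hH, ← Finset.add_sum_erase _ _ (mem_univ 1), map_one, Matrix.conjTranspose_one, one_mul]
    exact Matrix.PosDef.one.add_posSemidef
      (Matrix.posSemidef_sum _ fun x _ => Matrix.posSemidef_conjTranspose_mul_self _)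
  have h2 : (A g)ᴴ * H * A g = H := by
    rw [hH, mul_sum, sum_mul]
    refine Fintype.sum_equiv (Equiv.mulRight g) _ _ fun x => ?_
    simp only [Equiv.coe_mulRight, map_mul, Matrix.conjTranspose_mul, mul_assoc]
  obtain ⟨K, hK⟩ := h1.isUnit.exists_right_inv
  have h3 : (A g)ᴴ = H * A g⁻¹ * K := by
    conv_rhs => rw [← h2]
    rw [mul_assoc _ (A g), ← map_mul, mul_inv_cancel, map_one, mul_one, mul_assoc, hK, mul_one]
  rw [hA, hA, starRingEnd_apply, ← Matrix.trace_conjTranspose, h3, Matrix.trace_mul_comm,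
    ← mul_assoc, mul_eq_one_comm.1 hK, one_mul]

lemma card_ne : (Fintype.card G : ℂ) ≠ 0 := Nat.cast_ne_zero.2 Fintype.card_ne_zero

lemma sum_char (ρ : Representation ℂ G U) (σ : Representation ℂ G V) :
    ∑ g, σ.character g * conj (ρ.character g) =
      Fintype.card G * finrank ℂ (IntertwiningMap ρ σ) := by
  have : Invertible (Nat.card G : ℂ) := invertibleOfNonzero (by
    rw [Nat.card_eq_fintype_card]; exact card_ne)
  rw [← card_inv_mul_sum_char_mul_char_eq_finrank, Nat.card_eq_fintype_card,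
    mul_inv_cancel_left₀ card_ne]
  simp only [char_inv]

lemma sum_char_self (ρ : Representation ℂ G U) [ρ.IsIrreducible] :
    ∑ g, ρ.character g * conj (ρ.character g) = Fintype.card G := by
  rw [sum_char, IsIrreducible.finrank_intertwiningMap_self, Nat.cast_one, mul_one]

lemma sum_char_zero (ρ : Representation ℂ G U) (σ : Representation ℂ G V) [ρ.IsIrreducible]
    [σ.IsIrreducible] (h : ¬ Nonempty (ρ.Equiv σ)) :
    ∑ g, σ.character g * conj (ρ.character g) = 0 := by
  rw [not_nonempty_iff] at h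
  rw [sum_char, finrank_zero_of_subsingleton, Nat.cast_zero, mul_zero]

lemma equiv_of_char (ρ : Representation ℂ G U) (σ : Representation ℂ G V) [ρ.IsIrreducible]
    [σ.IsIrreducible] (h : ρ.character = σ.character) : Nonempty (ρ.Equiv σ) := by
  by_contra h1
  have := sum_char_zero ρ σ h1
  rw [← h, sum_char_self] at this
  exact card_ne this

lemma sum_norm_sq {α : Type} (s : Finset α) (f : α → ℂ) :
    ∑ g ∈ s, f g * conj (f g) = ((∑ g ∈ s, ‖f g‖ ^ 2 : ℝ) : ℂ) := by
  simp only [Complex.mul_conj', Complex.ofReal_sum, Complex.ofReal_pow]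

lemma sum_char_norm (ρ : Representation ℂ G U) [ρ.IsIrreducible] :
    ∑ g, ‖ρ.character g‖ ^ 2 = Fintype.card G := by
  have := sum_char_self ρ
  rw [sum_norm_sq] at this
  exact_mod_cast this

lemma schur (ρ : Representation ℂ G U) [ρ.IsIrreducible] (f : U →ₗ[ℂ] U)
    (h : ∀ g, f ∘ₗ ρ g = ρ g ∘ₗ f) : ∃ c : ℂ, f = c • LinearMap.id := by
  obtain ⟨c, hc⟩ :=
    (IsIrreducible.algebraMap_intertwiningMap_bijective_of_isAlgClosed (ρ := ρ)).2 ⟨f, h⟩
  exact ⟨c, (congrArg IntertwiningMap.toLinearMap hc).symm⟩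

lemma char_one_ne (ρ : Representation ℂ G U) [ρ.IsIrreducible] : ρ.character 1 ≠ 0 := by
  intro h
  rw [char_one, Nat.cast_eq_zero, finrank_zero_iff] at h
  exact bot_ne_top (α := Subrepresentation ρ) (SetLike.ext fun v => by
    rw [Subsingleton.elim v 0]
    exact iff_of_true (Submodule.zero_mem _) (Submodule.zero_mem _))

/-- A central element changes the character by a factor of absolute value one. -/
lemma norm_char_central (ρ : Representation ℂ G U) [ρ.IsIrreducible] {z : G}
    (hz : ∀ g, z * g = g * z) (g : G) : ‖ρ.character (z * g)‖ = ‖ρ.character g‖ := by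
  obtain ⟨c, hc⟩ := schur ρ (ρ z) fun x => by
    rw [← Module.End.mul_eq_comp, ← Module.End.mul_eq_comp, ← map_mul, ← map_mul, hz]
  have h1 : ∀ x, ρ.character (z * x) = c * ρ.character x := fun x => by
    rw [character, map_mul, hc, smul_mul_assoc, map_smul]; rfl
  have h2 : ∀ n : ℕ, ρ.character (z ^ n) = c ^ n * ρ.character 1 := fun n => by
    induction n with
    | zero => simp
    | succ n ih => rw [pow_succ', h1, ih, pow_succ', mul_assoc]
  have h3 := h2 (Fintype.card G)
  rw [pow_card_eq_one, eq_comm, mul_eq_right₀ (char_one_ne ρ)] at h3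
  rw [h1, norm_mul, Complex.norm_eq_one_of_pow_eq_one h3 Fintype.card_ne_zero, one_mul]

/-- The group is generated by `A` and the centraliser of `A`. -/
def Fac (A : Subgroup G) : Prop := ∀ g : G, ∃ a ∈ A, ∃ y, (∀ h ∈ A, Commute h y) ∧ g = a * y

lemma Fac.scalar {A : Subgroup G} (hA : Fac A) (ρ : Representation ℂ G U) [ρ.IsIrreducible]
    {a : G} (ha : a ∈ A) : ρ.character 1 • ∑ h : A, ρ (h * a * (h : G)⁻¹) =
      (Fintype.card A * ρ.character a) • LinearMap.id := by
  obtain ⟨c, hc⟩ := schur ρ (∑ h : A, ρ (h * a * (h : G)⁻¹)) fun g => by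
    obtain ⟨a', ha', y, hy, rfl⟩ := hA g
    rw [← Module.End.mul_eq_comp, ← Module.End.mul_eq_comp, sum_mul, mul_sum]
    refine (Fintype.sum_equiv (Equiv.mulLeft (⟨a', ha'⟩ : A)) _ _ fun h => ?_).symm
    have := (hy _ (A.mul_mem (A.mul_mem h.2 ha) (A.inv_mem h.2))).eq
    rw [← map_mul, ← map_mul, mul_assoc a', ← this]
    simp [mul_assoc]
  have h1 := congrArg (LinearMap.trace ℂ U) hc
  rw [map_sum, map_smul, LinearMap.trace_id, ← char_one ρ] at h1
  simp only [← character.eq_1, char_conj, sum_const, card_univ, nsmul_eq_mul, smul_eq_mul] at h1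
  rw [hc, h1, smul_smul, mul_comm]

lemma Fac.mul {A : Subgroup G} (hA : Fac A) (ρ : Representation ℂ G U) [ρ.IsIrreducible]
    {a y : G} (ha : a ∈ A) (hy : ∀ h ∈ A, Commute h y) :
    ρ.character 1 * ρ.character (a * y) = ρ.character a * ρ.character y := by
  have h1 := congrArg (fun f => LinearMap.trace ℂ U (f * ρ y)) (hA.scalar ρ ha)
  have h2 : ∀ h : A, LinearMap.trace ℂ U (ρ (h * a * (h : G)⁻¹) * ρ y) = ρ.character (a * y) :=
    fun h => by
      rw [← map_mul, ← char_conj ρ (a * y) h, mul_assoc _ _ y, (hy _ h.2).inv_left.eq]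
      simp only [character, mul_assoc]
  simp only [smul_mul_assoc, map_smul, sum_mul, map_sum, h2, sum_const, card_univ, nsmul_eq_mul,
    smul_eq_mul, ← Module.End.one_eq_id, one_mul, ← character.eq_1] at h1
  refine mul_left_cancel₀ (card_ne (G := A)) ?_
  linear_combination h1

lemma Fac.agree {A H : Subgroup G} (hA : Fac A) (hH : A ≤ H) (ρ σ : Representation ℂ G U)
    [ρ.IsIrreducible] [σ.IsIrreducible]
    (h : ∑ g : H, σ.character g * conj (ρ.character g) ≠ 0) {a : G} (ha : a ∈ A) :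
    ρ.character a = σ.character a := by
  have h1 := sum_char (ρ.comp H.subtype) (σ.comp H.subtype)
  have h2 : finrank ℂ (IntertwiningMap (ρ.comp H.subtype) (σ.comp H.subtype)) ≠ 0 := fun h0 =>
    h (h1.trans (by rw [h0, Nat.cast_zero, mul_zero]))
  obtain ⟨T, hT⟩ := (finrank_pos_iff_exists_ne_zero (R := ℂ)).1 (Nat.pos_of_ne_zero h2)
  obtain ⟨u, hu⟩ : ∃ u, T u ≠ 0 := by
    by_contra! h0
    exact hT (IntertwiningMap.ext (LinearMap.ext h0))
  have e1 := congrArg (fun f => T (f u)) (hA.scalar ρ ha)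
  have e2 := congrArg (fun f => f (T u)) (hA.scalar σ ha)
  have e3 : ∀ k : A, T (ρ (k * a * (k : G)⁻¹) u) = σ (k * a * (k : G)⁻¹) (T u) := fun k =>
    T.isIntertwining _ _ ⟨_, hH (A.mul_mem (A.mul_mem k.2 ha) (A.inv_mem k.2))⟩ u
  simp only [LinearMap.smul_apply, LinearMap.sum_apply, map_smul, map_sum, e3, char_one,
    LinearMap.id_apply] at e1 e2
  exact mul_left_cancel₀ (card_ne (G := A)) (smul_left_injective ℂ hu (e1.symm.trans e2))

lemma split_conj (H : Subgroup G) {x : G} (h1 : ∀ h ∈ H, x⁻¹ * h * x ∈ H)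
    (h2 : ∀ h ∈ H, h * x = x * h → h = 1) {h : G} (hh : h ∈ H) :
    ∃ k : G, k * x * k⁻¹ = x * h := by
  let f : H → H := fun k => ⟨x⁻¹ * k * x * (k : G)⁻¹, H.mul_mem (h1 _ k.2) (H.inv_mem k.2)⟩
  have hf : Function.Injective f := fun k l e => by
    have e1 : x⁻¹ * k * x * (k : G)⁻¹ = x⁻¹ * l * x * (l : G)⁻¹ := congrArg Subtype.val e
    have := h2 ((l : G)⁻¹ * k) (H.mul_mem (H.inv_mem l.2) k.2) (by
      calc (l : G)⁻¹ * k * x = (l : G)⁻¹ * x * (x⁻¹ * k * x * (k : G)⁻¹) * k := by group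
        _ = _ := by rw [e1]; group)
    exact Subtype.ext (inv_mul_eq_one.1 this).symm
  obtain ⟨k, hk⟩ := Finite.injective_iff_surjective.1 hf ⟨h, hh⟩
  exact ⟨k, by rw [← show x⁻¹ * k * x * (k : G)⁻¹ = h from congrArg Subtype.val hk]; group⟩

noncomputable instance : Invertible (Fintype.card G : ℂ) := invertibleOfNonzero card_ne

lemma char_split (ρ : Representation ℂ G V) (H : Subgroup G) {x : G}
    (h1 : ∀ h ∈ H, x⁻¹ * h * x ∈ H) (h2 : ∀ h ∈ H, h * x = x * h → h = 1) :
    ρ.character x = LinearMap.trace ℂ V (ρ x ∘ₗ averageMap (ρ.comp H.subtype)) := by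
  have h3 : ∀ h : H, LinearMap.trace ℂ V (ρ x * ρ h) = ρ.character x := fun h => by
    obtain ⟨k, hk⟩ := split_conj H h1 h2 h.2
    rw [← map_mul, ← hk]
    exact char_conj ρ x k
  simp [averageMap, GroupAlgebra.average, ← Module.End.mul_eq_comp, mul_sum, h3]

lemma char_zero_of_split (ρ : Representation ℂ G V) (H : Subgroup G) {x : G}
    (h1 : ∀ h ∈ H, x⁻¹ * h * x ∈ H) (h2 : ∀ h ∈ H, h * x = x * h → h = 1)
    (h3 : ∀ v, (∀ h ∈ H, ρ h v = v) → v = 0) : ρ.character x = 0 := by
  have : averageMap (ρ.comp H.subtype) = 0 := LinearMap.ext fun v =>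
    h3 _ fun h hh => averageMap_invariant (ρ.comp H.subtype) v ⟨h, hh⟩
  rw [char_split ρ H h1 h2, this, LinearMap.comp_zero, map_zero]

end Pool.Agent.P.MP_7cb106_nt.Ty
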