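import Pool.Agent.P.MP_7cb106_nt.Ty.Chr

/-! Decomposition of characters, counting conjugates, quadratic forms. -/

set_option autoImplicit false
set_option linter.unusedSectionVars false

namespace Pool.Agent.P.MP_7cb106_nt.Ty

open Module Representation Finset
open scoped ComplexConjugate Classical

variable {G U V : Type} [Group G] [Fintype G] [AddCommGroup U] [Module ℂ U]
  [FiniteDimensional ℂ U] [AddCommGroup V] [Module ℂ V] [FiniteDimensional ℂ V]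

lemma exists_left_inv (ρ : Representation ℂ G U) (τ : Representation ℂ G V) (T : U →ₗ[ℂ] V)
    (hT : ∀ g u, T (ρ g u) = τ g (T u)) (hi : Function.Injective T) :
    ∃ S : V →ₗ[ℂ] U, (∀ u, S (T u) = u) ∧ ∀ g v, S (τ g v) = ρ g (S v) := by
  obtain ⟨S, h0⟩ := T.exists_leftInverse_of_injective (LinearMap.ker_eq_bot.2 hi)
  have h1 : ∀ u, S (T u) = u := fun u => congrArg (fun f => f u) h0
  refine ⟨(Fintype.card G : ℂ)⁻¹ • ∑ g, ρ g⁻¹ ∘ₗ S ∘ₗ τ g, fun u => ?_, fun g v => ?_⟩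
  · simp [← hT, h1, ← Nat.cast_smul_eq_nsmul ℂ, smul_smul]
  · simp only [LinearMap.smul_apply, LinearMap.sum_apply, LinearMap.comp_apply, map_smul, map_sum]
    congr 1
    refine Fintype.sum_equiv (Equiv.mulRight g) _ _ fun h => ?_
    simp

lemma char_mem_span {ι : Type} (lam : ι → Representation ℂ G U) (hl : ∀ i, (lam i).IsIrreducible)
    (τ : Representation ℂ G V) (h : ∀ X : Submodule ℂ V, X ≠ ⊥ → (∀ g, ∀ v ∈ X, τ g v ∈ X) →
      ∃ i, ∃ T : U →ₗ[ℂ] V, T ≠ 0 ∧ (∀ u, T u ∈ X) ∧ ∀ g u, T (lam i g u) = τ g (T u)) :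
    τ.character ∈ Submodule.span ℂ (Set.range fun i => (lam i).character) := by
  have key : ∀ (n : ℕ) (p : V →ₗ[ℂ] V), finrank ℂ (LinearMap.range p) = n → (∀ v, p (p v) = p v) →
      (∀ g v, p (τ g v) = τ g (p v)) → (fun g => LinearMap.trace ℂ V (τ g ∘ₗ p)) ∈
        Submodule.span ℂ (Set.range fun i => (lam i).character) := by
    intro n
    induction n using Nat.strong_induction_on with
    | _ n ih =>
    intro p hn hp he
    by_cases h0 : LinearMap.range p = ⊥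
    · rw [LinearMap.range_eq_bot.1 h0]
      simp only [LinearMap.comp_zero, map_zero]
      exact Submodule.zero_mem _
    obtain ⟨i, T, hT, hX, hTe⟩ := h _ h0 (by rintro g _ ⟨v, rfl⟩; exact ⟨_, he g v⟩)
    have hpT : ∀ u, p (T u) = T u := fun u => by obtain ⟨v, e⟩ := hX u; rw [← e, hp]
    have := hl i
    have hi : Function.Injective T :=
      (IsIrreducible.injective_or_eq_zero
        (⟨T, fun g => LinearMap.ext (hTe g)⟩ : IntertwiningMap (lam i) τ)).resolve_right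
        fun e => hT (congrArg IntertwiningMap.toLinearMap e)
    obtain ⟨S, hS, hSe⟩ := exists_left_inv _ τ T hTe hi
    have h1 := ih _ ?_ (p - T ∘ₗ S ∘ₗ p) rfl (fun v => by simp [hp, hpT, hS])
      (fun g v => by simp [he, hSe, hTe])
    · convert Submodule.add_mem _ h1 (Submodule.subset_span ⟨i, rfl⟩) using 1
      ext g
      have e1 : τ g ∘ₗ T ∘ₗ S ∘ₗ p = T ∘ₗ (lam i g ∘ₗ S ∘ₗ p) := by ext v; simp [hTe]
      have e2 : (lam i g ∘ₗ S ∘ₗ p) ∘ₗ T = lam i g := by ext v; simp [hpT, hS]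
      simp only [Pi.add_apply, LinearMap.comp_sub, map_sub]
      rw [e1, LinearMap.trace_comp_comm' _ T, e2, character, sub_add_cancel]
    · rw [← hn]
      refine Submodule.finrank_lt_finrank_of_lt (lt_of_le_of_ne ?_ fun e => hT ?_)
      · rintro _ ⟨v, rfl⟩
        exact ⟨p v - T (S (p v)), by simp [hp, hpT]⟩
      · ext u
        obtain ⟨v, hv⟩ := e.ge (hX u)
        have := congrArg S hv
        simp [hS] at this
        simp [← this]
  exact key _ LinearMap.id rfl (fun _ => rfl) fun _ _ => rfl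

lemma class_count (T N : Finset G) (hN : ∀ x ∈ T, ∀ x' ∈ T, ∀ h, h * x = x' * h → h ∈ N)
    (ψ : G → ℝ) (h0 : ∀ g, 0 ≤ ψ g) (hψ : ∀ g h, ψ (h * g * h⁻¹) = ψ g) :
    Fintype.card G * ∑ x ∈ T, ψ x ≤ N.card * ∑ g, ψ g := by
  have h1 : Fintype.card G * ∑ x ∈ T, ψ x = ∑ p ∈ univ ×ˢ T, ψ (p.1 * p.2 * p.1⁻¹) := by
    simp [sum_product, hψ]
  rw [h1, ← sum_fiberwise_of_maps_to (g := fun p : G × G => p.1 * p.2 * p.1⁻¹)
    (fun p _ => mem_univ _), mul_sum]
  refine sum_le_sum fun g _ => ?_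
  rw [sum_congr rfl (g := fun _ => ψ g) fun p hp => by rw [(mem_filter.1 hp).2], sum_const,
    nsmul_eq_mul]
  refine mul_le_mul_of_nonneg_right (Nat.cast_le.2 ?_) (h0 g)
  rcases eq_empty_or_nonempty {p ∈ univ ×ˢ T | p.1 * p.2 * p.1⁻¹ = g} with e | ⟨q, hq⟩
  · rw [e]; exact Nat.zero_le _
  simp only [mem_filter, mem_product, mem_univ, true_and] at hq
  refine card_le_card_of_injOn (fun p => q.1⁻¹ * p.1) (fun p hp => ?_) fun p hp p' hp' e => ?_
  · simp only [coe_filter, mem_product, mem_univ, true_and, Set.mem_ofPred_eq] at hp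
    refine hN _ hp.1 _ hq.1 _ ?_
    calc q.1⁻¹ * p.1 * p.2 = q.1⁻¹ * (p.1 * p.2 * p.1⁻¹) * p.1 := by group
      _ = _ := by rw [hp.2, ← hq.2]; group
  · simp only [coe_filter, mem_product, mem_univ, true_and, Set.mem_ofPred_eq] at hp hp'
    have e1 : p.1 = p'.1 := mul_left_cancel e
    have e2 := hp.2.trans hp'.2.symm
    rw [e1] at e2
    exact Prod.ext e1 (mul_left_cancel (mul_right_cancel e2))

lemma sq_expand {α ι : Type} (s : Finset α) (L : Finset ι) (f : ι → α → ℂ) (c : ι → ℂ) :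
    ((∑ y ∈ s, ‖∑ i ∈ L, c i * f i y‖ ^ 2 : ℝ) : ℂ) =
      ∑ i ∈ L, ∑ j ∈ L, c i * conj (c j) * ∑ y ∈ s, f i y * conj (f j y) := by
  rw [← sum_norm_sq]
  simp only [map_sum, map_mul, sum_mul_sum]
  simp only [mul_sum]
  rw [sum_comm]
  refine sum_congr rfl fun i _ => ?_
  rw [sum_comm]
  exact sum_congr rfl fun j _ => sum_congr rfl fun y _ => by ring

lemma sq_orth {α ι : Type} [DecidableEq ι] (s : Finset α) (L : Finset ι) (f : ι → α → ℂ) (c : ι → ℂ) (C : ℝ)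
    (h : ∀ i ∈ L, ∀ j ∈ L, ∑ y ∈ s, f i y * conj (f j y) = if i = j then (C : ℂ) else 0) :
    ∑ y ∈ s, ‖∑ i ∈ L, c i * f i y‖ ^ 2 = C * ∑ i ∈ L, ‖c i‖ ^ 2 := by
  refine Complex.ofReal_injective ?_
  rw [sq_expand, Complex.ofReal_mul, ← sum_norm_sq, mul_sum]
  refine sum_congr rfl fun i hi => ?_
  rw [sum_congr rfl fun j hj => by rw [h i hi j hj, mul_ite, mul_zero], sum_ite_eq, if_pos hi,
    mul_comm]

lemma sq_near {α ι : Type} (s : Finset α) (L : Finset ι) (f : ι → α → ℂ) (c : ι → ℂ) (d : ℝ)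
    (hd : ∀ i ∈ L, ∑ y ∈ s, ‖f i y‖ ^ 2 ≤ d)
    (h2 : ∀ i ∈ L, #{j ∈ L | ∑ y ∈ s, f i y * conj (f j y) ≠ 0} ≤ 2) :
    ∑ y ∈ s, ‖∑ i ∈ L, c i * f i y‖ ^ 2 ≤ 2 * d * ∑ i ∈ L, ‖c i‖ ^ 2 := by
  set P : ι → ι → ℂ := fun i j => ∑ y ∈ s, f i y * conj (f j y) with hP
  have hs : ∀ i j, P j i ≠ 0 ↔ P i j ≠ 0 := fun i j => by
    have : P j i = conj (P i j) := by simp [hP, mul_comm]
    rw [this, map_ne_zero]
  have h3 : ∀ i ∈ L, ∑ j ∈ L, (if P i j ≠ 0 then ‖c i‖ ^ 2 * d / 2 else 0) ≤ d * ‖c i‖ ^ 2 := by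
    intro i hi
    have d0 : 0 ≤ d := (sum_nonneg fun _ _ => by positivity).trans (hd i hi)
    have : (#{j ∈ L | P i j ≠ 0} : ℝ) ≤ 2 := by exact_mod_cast h2 i hi
    rw [← sum_filter, sum_const, nsmul_eq_mul]
    nlinarith [mul_nonneg d0 (sq_nonneg ‖c i‖)]
  have h4 : ∀ i ∈ L, ∀ j ∈ L, ‖c i * conj (c j) * P i j‖ ≤
      (if P i j ≠ 0 then ‖c i‖ ^ 2 * d / 2 else 0) +
        (if P j i ≠ 0 then ‖c j‖ ^ 2 * d / 2 else 0) := by
    intro i hi j hj
    by_cases h : P i j = 0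
    · simp [h, hs i j]
    rw [if_pos h, if_pos ((hs i j).2 h), hP, mul_sum]
    refine (norm_sum_le _ _).trans ((sum_le_sum (g := fun y => ‖c i‖ ^ 2 * ‖f i y‖ ^ 2 / 2 +
      ‖c j‖ ^ 2 * ‖f j y‖ ^ 2 / 2) fun y _ => ?_).trans ?_)
    · simp only [norm_mul, Complex.norm_conj]
      nlinarith [sq_nonneg (‖c i‖ * ‖f i y‖ - ‖c j‖ * ‖f j y‖)]
    · rw [sum_add_distrib, ← sum_div, ← sum_div, ← mul_sum, ← mul_sum]
      gcongr
      exacts [hd i hi, hd j hj]
  have h5 := congrArg Norm.norm (sq_expand s L f c)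
  rw [Complex.norm_real, Real.norm_of_nonneg (sum_nonneg fun _ _ => by positivity)] at h5
  rw [h5]
  refine (norm_sum_le _ _).trans ((sum_le_sum fun i hi => (norm_sum_le _ _).trans
    (sum_le_sum fun j hj => h4 i hi j hj)).trans ?_)
  simp only [sum_add_distrib]
  rw [sum_comm (f := fun i j => if P j i ≠ 0 then ‖c j‖ ^ 2 * d / 2 else 0)]
  have := sum_le_sum h3
  rw [← mul_sum] at this
  linarith

end Pool.Agent.P.MP_7cb106_nt.Ty
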