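import Mathlib

/-! Definitions: Levi subgroups of `GL_n` over a ring, unipotent radicals, cuspidal and pure
representations. -/

set_option autoImplicit false

namespace Pool.Agent.P.MP_7cb106_nt.Ty

variable {O I B U V : Type} [CommRing O] [Fintype I] [DecidableEq I]

/-- The block diagonal invertible matrices for the partition given by the fibres of `b`. -/
def Levi (O : Type) [CommRing O] (b : I → B) : Subgroup (GL I O) where
  carrier := {g | ∀ s t, b s ≠ b t → g s t = 0}
  mul_mem' := by
    intro g h hg hh s t hst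
    rw [Units.val_mul, Matrix.mul_apply]
    refine Finset.sum_eq_zero fun u _ => ?_
    by_cases h1 : b s = b u
    · rw [hh u t (h1 ▸ hst), mul_zero]
    · rw [hg s u h1, zero_mul]
  one_mem' := fun s t h => Matrix.one_apply_ne fun e => h (congrArg b e)
  inv_mem' := by
    classical
    intro g hg s t hst
    have h : Commute (Matrix.diagonal fun u => if b u = b s then (1 : O) else 0) g.val := by
      ext u v
      rw [Matrix.diagonal_mul, Matrix.mul_diagonal]
      by_cases h1 : b u = b v
      · rw [h1, mul_comm]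
      · rw [hg u v h1, mul_zero, zero_mul]
    have h2 := congrFun (congrFun h.units_inv_right.eq s) t
    rw [Matrix.diagonal_mul, Matrix.mul_diagonal, if_pos rfl, if_neg hst.symm] at h2
    simpa using h2

/-- The matrix `g` agrees with the identity matrix outside the positions allowed by `S`. -/
def Rad (S : I → I → Prop) (g : GL I O) : Prop := ∀ s t, ¬ S s t → g s t = (1 : Matrix I I O) s t

/-- The permutation `w` of the indices permutes the blocks. -/
def Blk (b : I → B) (w : Equiv.Perm I) : Prop := ∀ s t, b (w s) = b (w t) ↔ b s = b t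

/-- The representation is trivial on a congruence subgroup of finite level. -/
def Level {H : Type} [Group H] [AddCommGroup V] [Module ℂ V] (ι : H →* GL I O)
    (ρ : Representation ℂ H V) : Prop :=
  ∃ a : Ideal O, Finite (O ⧸ a) ∧ ∀ h, (∀ s t, ι h s t - (1 : Matrix I I O) s t ∈ a) → ρ h = 1

variable [AddCommGroup U] [Module ℂ U] [AddCommGroup V] [Module ℂ V] {b : I → B}

/-- No nonzero vector is fixed by the unipotent radical of a proper parabolic subgroup of the
Levi subgroup. -/
def Cusp (lam : Representation ℂ (Levi O b) U) : Prop :=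
  ∀ S : Set I, (∃ s t, b s = b t ∧ s ∈ S ∧ t ∉ S) → ∀ u : U,
    (∀ x : Levi O b, Rad (fun s t => s ∈ S ∧ t ∉ S) x.val → lam x u = u) → u = 0

/-- The permutations of the blocks that fix the isomorphism class of `lam`. -/
def Stab (lam : Representation ℂ (Levi O b) U) : Set (Equiv.Perm B) :=
  {π | ∃ w : Equiv.Perm I, (∀ s, b (w s) = π (b s)) ∧ ∃ e : U ≃ₗ[ℂ] U,
    ∀ x y : Levi O b, (∀ s t, x.val s t = y.val (w s) (w t)) → ∀ u, e (lam x u) = lam y (e u)}

variable [LT B]

/-- The vector is fixed by the unipotent radical of the standard parabolic subgroup. -/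
def Fixed (b : I → B) (σ : Representation ℂ (GL I O) V) (v : V) : Prop :=
  ∀ g, Rad (fun s t => b s < b t) g → σ g v = v

/-- Equivariant maps from the conjugate of `lam` by `w` to the fixed vectors. -/
def HomP (lam : Representation ℂ (Levi O b) U) (σ : Representation ℂ (GL I O) V)
    (w : Equiv.Perm I) : Submodule ℂ (U →ₗ[ℂ] V) where
  carrier := {T | (∀ u, Fixed b σ (T u)) ∧
    ∀ x y : Levi O b, (∀ s t, x.val s t = y.val (w s) (w t)) → ∀ u, T (lam x u) = σ y (T u)}
  add_mem' := fun h h' => ⟨fun u g hg => by
    rw [LinearMap.add_apply, map_add, h.1 u g hg, h'.1 u g hg], fun x y e u => by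
    rw [LinearMap.add_apply, LinearMap.add_apply, map_add, h.2 x y e, h'.2 x y e]⟩
  zero_mem' := ⟨fun u g _ => map_zero _, fun x y _ u => (map_zero _).symm⟩
  smul_mem' := fun c T h => ⟨fun u g hg => by
    rw [LinearMap.smul_apply, map_smul, h.1 u g hg], fun x y e u => by
    rw [LinearMap.smul_apply, LinearMap.smul_apply, map_smul, h.2 x y e]⟩

/-- There are nonzero fixed vectors, and every nonzero subspace of fixed vectors that is stable
under the Levi subgroup receives a nonzero map from a conjugate of `lam`. -/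
def Pure (lam : Representation ℂ (Levi O b) U) (σ : Representation ℂ (GL I O) V) : Prop :=
  (∃ v, v ≠ 0 ∧ Fixed b σ v) ∧ ∀ X : Submodule ℂ V, X ≠ ⊥ → (∀ v ∈ X, Fixed b σ v) →
    (∀ y : Levi O b, ∀ v ∈ X, σ y v ∈ X) →
      ∃ w, Blk b w ∧ ∃ T ∈ HomP lam σ w, T ≠ 0 ∧ ∀ u, T u ∈ X

end Pool.Agent.P.MP_7cb106_nt.Ty
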