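import Pool.Agent.P.MP_7cb106_nt.Ty.Near

/-! The count of pure representations over a finite local ring. -/

set_option autoImplicit false
set_option linter.unusedSectionVars false

namespace Pool.Agent.P.MP_7cb106_nt.Ty

open Module Representation Finset IsLocalRing
open Equiv (Perm)
open scoped ComplexConjugate Classical

variable {R I B U V : Type} [CommRing R] [IsLocalRing R] [Finite (ResidueField R)] [Fintype I]
  [DecidableEq I] [Fintype B] {b : I → B} [Fintype (GL I R)] [AddCommGroup U] [Module ℂ U]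
  [FiniteDimensional ℂ U] [AddCommGroup V] [Module ℂ V] [FiniteDimensional ℂ V]
  (lam : Representation ℂ (Levi R b) U) [lam.IsIrreducible]

lemma lam_orth : ∀ f ∈ Lam lam, ∀ f' ∈ Lam lam, ∑ y, f y * conj (f' y) =
    if f = f' then ((Fintype.card (Levi R b) : ℝ) : ℂ) else 0 := by
  intro f hf f' hf'
  obtain ⟨w, hw, rfl⟩ := mem_Lam.1 hf
  obtain ⟨w', hw', rfl⟩ := mem_Lam.1 hf'
  have := irr_tw lam hw
  have := irr_tw lam hw'
  split_ifs with h
  · rw [h, sum_char_self, Complex.ofReal_natCast]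
  · exact sum_char_zero _ _ fun ⟨e⟩ => h (char_iso e).symm

lemma card_mono (hb : Function.Surjective b) : #{g : GL I R | Mono b g} ≤
    Fintype.card (Levi R b) * ((Stab lam).ncard * #(Lam lam)) := by
  choose w1 h1 e1 using fun f : Lam lam => mem_Lam.1 f.2
  choose w2 h2 _ using fun π : Stab lam => π.2
  rw [← Nat.card_coe_set_eq, Nat.card_eq_fintype_card, ← Fintype.card_coe (Lam lam),
    ← Fintype.card_prod, ← Fintype.card_prod]
  refine (card_le_card fun g hg => ?_).trans (card_image_le (s := univ)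
    (f := fun p : Levi R b × Stab lam × Lam lam => p.1.val * pm R (w1 p.2.2 * w2 p.2.1)))
  obtain ⟨w, hw, h⟩ := (mem_filter.1 hg).2
  let f : Lam lam := ⟨_, mem_Lam.2 ⟨w, hw, rfl⟩⟩
  have hv := (h1 f).inv.mul hw
  obtain ⟨π, hπ⟩ := hv.perm hb
  have := irr_tw lam hv
  obtain ⟨e⟩ := equiv_of_char (lam.comp (tw hv)) lam (funext fun y => by
    have : lam.character (tw (h1 f) _) = lam.character (tw hw _) :=
      congrFun (e1 f) (tw (h1 f).inv y)
    rw [tw_inv, tw_tw] at this
    exact this.symm)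
  let π' : Stab lam := ⟨π, _, hπ, e.toLinearEquiv, fun x y e' u => by
    rw [levi_ext (y := tw hv y) fun s t => (e' s t).trans (tw_apply hv y s t).symm]
    exact e.toIntertwiningMap.isIntertwining _ _ y u⟩
  refine mem_image.2 ⟨(⟨g * (pm R (w1 f * w2 π'))⁻¹, fun u s e' => ?_⟩, π', f), mem_univ _, by simp⟩
  rw [Units.val_mul, mul_pm_inv]
  by_contra h3
  refine e' ((h _ _ h3).trans ?_)
  obtain ⟨t, rfl⟩ := (w1 f * w2 π').surjective s
  have := (h1 f _ _).2 ((hπ t).trans (h2 π' t).symm)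
  simpa using this

lemma mem_span_Lam {g : Levi R b → ℂ} (hg : g ∈ Submodule.span ℂ
    (Set.range fun w : {w // Blk b w} => character (lam.comp (tw w.2)))) :
    ∃ c : (Levi R b → ℂ) → ℂ, ∀ y, g y = ∑ f ∈ Lam lam, c f * f y := by
  rw [← Set.image_univ, ← coe_univ, ← coe_image, Submodule.mem_span_finset] at hg
  obtain ⟨c, -, rfl⟩ := hg
  exact ⟨c, fun y => by simp [Lam]⟩

lemma span_vanish (hb : Function.Surjective b)
    (hq : 2 * (Fintype.card I * (Fintype.card I - 1)) + 1 < Nat.card (ResidueField R))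
    {g : Levi R b → ℂ} (hg : g ∈ Submodule.span ℂ
      (Set.range fun w : {w // Blk b w} => character (lam.comp (tw w.2))))
    (h : ∀ y, Good y → g y = 0) : g = 0 := by
  obtain ⟨c, hc⟩ := mem_span_Lam lam hg
  have h1 := near hb lam c
  have h2 := sq_orth univ _ (fun f => f) c _ (lam_orth lam)
  simp only [← hc] at h1 h2
  rw [sum_filter_of_ne (p := (¬ Good ·)) fun y _ e e' => e (by simp [h y e']), mul_assoc,
    ← h2] at h1
  have h3 : (2 * (Fintype.card I * (Fintype.card I - 1 : ℕ)) + 1 : ℝ) <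
    Nat.card (ResidueField R) := by exact_mod_cast hq
  have h4 : ∑ y, ‖g y‖ ^ 2 = 0 := le_antisymm (by nlinarith) (sum_nonneg fun _ _ => sq_nonneg _)
  funext y
  simpa using (sum_eq_zero_iff_of_nonneg fun _ _ => sq_nonneg _).1 h4 y (mem_univ _)

variable [Preorder B]

lemma jac_tw (hb : Function.Surjective b)
    (hq : 2 * (Fintype.card I * (Fintype.card I - 1)) + 1 < Nat.card (ResidueField R))
    {σ : Representation ℂ (GL I R) V} (h : Pure lam σ) {w : Perm I} (hw : Blk b w) (y : Levi R b) :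
    (jacS b σ).toRepresentation.character (tw hw y) = (jacS b σ).toRepresentation.character y := by
  set F := (jacS b σ).toRepresentation.character with hF
  have := span_vanish lam hb hq (g := LinearMap.funLeft ℂ ℂ (tw hw) F - F)
    (Submodule.sub_mem _ ?_ (jac_span h)) fun y hy => ?_
  · exact sub_eq_zero.1 (congrFun this y)
  · refine Submodule.span_mono ?_ (Submodule.apply_mem_span_image_of_mem_span _ (jac_span h))
    rintro _ ⟨_, ⟨w', rfl⟩, rfl⟩
    exact ⟨⟨_, hw.mul w'.2⟩, funext fun y => congrArg lam.character (tw_tw w'.2 hw y).symm⟩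
  · rw [Pi.sub_apply, LinearMap.funLeft_apply, hF, ← char_good σ hy, ← char_good σ (hy.tw hw),
      ← char_conj σ y (pm R w)⁻¹, inv_inv]
    exact sub_self _

lemma mult_eq (hb : Function.Surjective b)
    (hq : 2 * (Fintype.card I * (Fintype.card I - 1)) + 1 < Nat.card (ResidueField R))
    {σ : Representation ℂ (GL I R) V} (h : Pure lam σ) {w : Perm I} (hw : Blk b w) :
    finrank ℂ (HomP lam σ w) = finrank ℂ (HomP lam σ 1) := by
  refine Nat.cast_injective (R := ℂ) (mul_left_cancel₀ (card_ne (G := Levi R b)) ?_)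
  rw [← jac_mult _ _ hw, ← jac_mult _ _ Blk.one, ← sum_char, ← sum_char]
  refine Fintype.sum_bijective _ (tw_bij hw) _ _ fun y => ?_
  rw [jac_tw lam hb hq h]
  exact congrArg (fun z => (jacS b σ).toRepresentation.character y * conj (lam.character z))
    (tw_one _).symm

lemma jac_eq (hb : Function.Surjective b)
    (hq : 2 * (Fintype.card I * (Fintype.card I - 1)) + 1 < Nat.card (ResidueField R))
    {σ : Representation ℂ (GL I R) V} (h : Pure lam σ) (y : Levi R b) :
    (jacS b σ).toRepresentation.character y = finrank ℂ (HomP lam σ 1) * ∑ f ∈ Lam lam, f y := by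
  obtain ⟨c, hc⟩ := mem_span_Lam lam (jac_span h)
  rw [hc, mul_sum]
  refine sum_congr rfl fun f hf => congrArg (· * f y) (mul_left_cancel₀ (card_ne (G := Levi R b)) ?_)
  have h2 : ∑ y, (jacS b σ).toRepresentation.character y * conj (f y) =
      Fintype.card (Levi R b) * c f := by
    simp only [hc, sum_mul, mul_assoc]
    rw [sum_comm, sum_congr rfl fun f' hf' => by
      rw [← mul_sum, lam_orth lam f' hf' f hf, mul_ite, mul_zero], sum_ite_eq', if_pos hf, mul_comm,
      Complex.ofReal_natCast]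
  obtain ⟨w, hw, rfl⟩ := mem_Lam.1 hf
  rw [← h2, sum_char, jac_mult, mult_eq lam hb hq h hw]

theorem finite_case (hb : Function.Surjective b) (hc : Cusp lam)
    (hq : 2 * (Fintype.card I * (Fintype.card I - 1)) * ((Stab lam).ncard + 1) + 1 <
      Nat.card (ResidueField R))
    {J : Type} [Fintype J] {V : J → Type} [∀ j, AddCommGroup (V j)] [∀ j, Module ℂ (V j)]
    [∀ j, FiniteDimensional ℂ (V j)] (σ : ∀ j, Representation ℂ (GL I R) (V j))
    [∀ j, (σ j).IsIrreducible] (hσ : ∀ j, Pure lam (σ j))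
    (hne : ∀ i j, Nonempty ((σ i).Equiv (σ j)) → i = j) :
    ∃ m : J → ℕ+, (∀ j w, Blk b w → finrank ℂ (HomP lam (σ j) w) = m j) ∧
      ∑ j, (m j : ℕ) ^ 2 ≤ (Stab lam).ncard := by
  have hq' : 2 * (Fintype.card I * (Fintype.card I - 1)) + 1 < Nat.card (ResidueField R) :=
    lt_of_le_of_lt (Nat.succ_le_succ (Nat.le_mul_of_pos_right _ (Nat.succ_pos _))) hq
  refine ⟨fun j => ⟨finrank ℂ (HomP lam (σ j) 1), Nat.pos_of_ne_zero fun e => jac_ne (hσ j) ?_⟩,
    fun j w hw => mult_eq lam hb hq' (hσ j) hw, ?_⟩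
  · rw [jac_eq lam hb hq' (hσ j), e, Nat.cast_zero, zero_mul]
  simp only [PNat.mk_coe]
  set m := fun j => finrank ℂ (HomP lam (σ j) 1) with hm
  set S := ∑ j, m j ^ 2 with hS
  have h1 := class_count (image Subtype.val {y : Levi R b | Good y ∧ Prim y}) {g | Mono b g}
    (fun x hx x' hx' g e => by
      obtain ⟨y, hy, rfl⟩ := mem_image.1 hx
      obtain ⟨y', hy', rfl⟩ := mem_image.1 hx'
      rw [mem_filter] at hy hy'
      exact mem_filter.2 ⟨mem_univ _, fusion hb hy.2.1 hy'.2.1 hy'.2.2 e⟩)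
    (fun g => ‖∑ j, (m j : ℂ) * (σ j).character g‖ ^ 2) (fun _ => sq_nonneg _)
    fun g h => by simp only [char_conj]
  rw [sq_orth univ univ (fun j => (σ j).character) (fun j => (m j : ℂ)) (Fintype.card (GL I R))
    fun i _ j _ => by
      split_ifs with h
      · rw [h, sum_char_self, Complex.ofReal_natCast]
      · exact sum_char_zero _ _ fun e => h (hne _ _ e).symm,
    sum_image fun _ _ _ _ => Subtype.ext, mul_left_comm,
    mul_le_mul_iff_right₀ (Nat.cast_pos.2 Fintype.card_pos)] at h1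
  have h2 : ∑ y : Levi R b with Good y ∧ Prim y, ‖∑ j, (m j : ℂ) * (σ j).character y‖ ^ 2 =
      (S : ℝ) ^ 2 * ∑ y with Good y, ‖∑ f ∈ Lam lam, 1 * f y‖ ^ 2 := by
    rw [← filter_filter, mul_sum, ← sum_filter_of_ne (s := {y | Good y}) (p := Prim)]
    · refine sum_congr rfl fun y hy => ?_
      have hy' := (mem_filter.1 (mem_filter.1 hy).1).2
      simp only [char_good _ hy', jac_eq lam hb hq' (hσ _), ← mul_assoc, ← sum_mul, one_mul,
        norm_mul, mul_pow]
      rw [← Complex.norm_natCast S, hS]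
      simp [hm, sq]
    · intro y _ h
      by_contra h'
      refine h ?_
      rw [sum_eq_zero fun f hf => ?_, norm_zero, zero_pow two_ne_zero, mul_zero]
      obtain ⟨w, hw, rfl⟩ := mem_Lam.1 hf
      rw [char_zero_of_not_prim (hc.tw hw) h', mul_zero]
  have h3 := near hb lam fun _ => 1
  have h4 := sq_orth univ _ (fun f => f) (fun _ => 1) _ (lam_orth lam)
  rw [← sum_filter_add_sum_filter_not univ Good] at h4
  have h5 : (#{g : GL I R | Mono b g} : ℝ) ≤
      Fintype.card (Levi R b) * ((Stab lam).ncard * #(Lam lam)) := by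
    exact_mod_cast card_mono lam hb
  have h6 : ∑ j, ‖(m j : ℂ)‖ ^ 2 = S := by simp [hS]
  have h7 : (0 : ℝ) < Fintype.card (Levi R b) * #(Lam lam) := mul_pos
    (Nat.cast_pos.2 Fintype.card_pos) (Nat.cast_pos.2 (card_pos.2 ⟨_, mem_Lam.2 ⟨1, Blk.one, rfl⟩⟩))
  have h8 : (2 * (Fintype.card I * (Fintype.card I - 1 : ℕ)) * ((Stab lam).ncard + 1) + 1 : ℝ) <
    Nat.card (ResidueField R) := by exact_mod_cast hq
  rw [h2, h6] at h1
  simp only [norm_one, one_pow, sum_const, nsmul_eq_mul, mul_one] at h3 h4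
  rw [mul_assoc] at h3
  by_contra h9
  have h10 : ((Stab lam).ncard + 1 : ℝ) ≤ S := by exact_mod_cast not_le.1 h9
  have D0 : (0 : ℝ) ≤ 2 * (Fintype.card I * (Fintype.card I - 1 : ℕ)) := by positivity
  generalize (2 * (Fintype.card I * (Fintype.card I - 1 : ℕ)) : ℝ) = D at *
  generalize (Nat.card (ResidueField R) : ℝ) = q at *
  generalize (∑ y with Good y, ‖∑ f ∈ Lam lam, 1 * f y‖ ^ 2) = a at *
  generalize hz : (∑ y with ¬ Good y, ‖∑ f ∈ Lam lam, 1 * f y‖ ^ 2) = z at *
  have z0 : 0 ≤ z := hz ▸ sum_nonneg fun _ _ => sq_nonneg _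
  have W0 : (0 : ℝ) ≤ (Stab lam).ncard := Nat.cast_nonneg _
  generalize ((Stab lam).ncard : ℝ) = W at *
  rw [mul_left_comm] at h5
  generalize (Fintype.card (Levi R b) * #(Lam lam) : ℝ) = K at *
  have a1 : (W + 1) * z < K := by
    by_contra! h
    have z1 : 0 < z := by nlinarith
    nlinarith [mul_le_mul_of_nonneg_left h D0, mul_pos z1 (sub_pos.2 h8)]
  have a2 : W * K < (W + 1) * a := by nlinarith
  have a3 : 0 < a := by nlinarith [mul_nonneg W0 h7.le]
  have a4 : (0 : ℝ) < S := by linarith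
  have a5 : (S : ℝ) * a ≤ W * K := le_of_mul_le_mul_left (by nlinarith) a4
  nlinarith

end Pool.Agent.P.MP_7cb106_nt.Ty
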