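import Pool.Agent.P.MP_7cb106_nt.Ty.Defs

/-! Matrices: supports, diagonal idempotents, permutation matrices, fusion. -/

set_option autoImplicit false
set_option linter.unusedSectionVars false

namespace Pool.Agent.P.MP_7cb106_nt.Ty

open Finset Equiv
open scoped Classical

variable {R I B : Type} [CommRing R] [Fintype I] [DecidableEq I] {b : I → B}

def Supp (S : I → I → Prop) (A : Matrix I I R) : Prop := ∀ s t, ¬ S s t → A s t = 0

lemma Supp.mul {S S' S'' : I → I → Prop} {A A' : Matrix I I R} (h : Supp S A) (h' : Supp S' A')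
    (hS : ∀ s u t, S s u → S' u t → S'' s t) : Supp S'' (A * A') := fun s t hst => by
  rw [Matrix.mul_apply]
  refine sum_eq_zero fun u _ => ?_
  by_cases h1 : S s u
  · rw [h' u t fun h2 => hst (hS s u t h1 h2), mul_zero]
  · rw [h s u h1, zero_mul]

lemma Supp.add {S : I → I → Prop} {A A' : Matrix I I R} (h : Supp S A) (h' : Supp S A') :
    Supp S (A + A') := fun s t e => by rw [Matrix.add_apply, h s t e, h' s t e, add_zero]

lemma Supp.sub {S : I → I → Prop} {A A' : Matrix I I R} (h : Supp S A) (h' : Supp S A') :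
    Supp S (A - A') := fun s t e => by rw [Matrix.sub_apply, h s t e, h' s t e, sub_zero]

lemma rad_iff {S : I → I → Prop} {g : GL I R} : Rad S g ↔ Supp S (g.val - 1) :=
  forall₃_congr fun _ _ _ => by rw [Matrix.sub_apply, sub_eq_zero]

/-- Block diagonal matrices. -/
abbrev InD (b : I → B) (A : Matrix I I R) : Prop := Supp (fun s t => b s = b t) A

lemma InD.mul {A A' : Matrix I I R} (h : InD b A) (h' : InD b A') : InD b (A * A') :=
  Supp.mul h h' fun _ _ _ => Eq.trans

lemma inD_one : InD b (1 : Matrix I I R) := (Levi R b).one_mem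

noncomputable def dg (R : Type) [CommRing R] (p : I → Prop) : Matrix I I R :=
  Matrix.diagonal fun s => if p s then 1 else 0

lemma dg_mul (p : I → Prop) (A : Matrix I I R) (s t : I) :
    (dg R p * A) s t = if p s then A s t else 0 := by simp [dg]

lemma mul_dg (p : I → Prop) (A : Matrix I I R) (s t : I) :
    (A * dg R p) s t = if p t then A s t else 0 := by simp [dg]

lemma inD_dg (p : I → Prop) : InD b (dg R p) := fun _ _ h =>
  Matrix.diagonal_apply_ne _ fun e => h (congrArg b e)

lemma dg_idem (p : I → Prop) : dg R p * dg R p = dg R p := by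
  ext s t
  rw [dg_mul]
  split_ifs with h
  · rfl
  · simp [dg, Matrix.diagonal_apply, h]

lemma dg_comm {p : I → Prop} (hp : ∀ s t, b s = b t → (p s ↔ p t)) {A : Matrix I I R}
    (h : InD b A) : dg R p * A = A * dg R p := by
  ext s t
  rw [dg_mul, mul_dg]
  by_cases e : b s = b t
  · rw [hp s t e]
  · simp [h s t e]

lemma exists_perm [Nontrivial R] (g : GL I R) : ∃ w : Perm I, ∀ t, g.val (w t) t ≠ 0 := by
  by_contra! h
  refine ((Matrix.isUnit_iff_isUnit_det _).1 g.isUnit).ne_zero ?_
  rw [Matrix.det_apply]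
  refine sum_eq_zero fun w _ => ?_
  obtain ⟨t, ht⟩ := h w
  rw [prod_eq_zero (f := fun i => g.val (w i) i) (mem_univ t) ht, smul_zero]

lemma exists_dg [IsLocalRing R] (e : Matrix I I R) :
    ∃ p : I → Prop, IsUnit (dg R p * e + (1 - dg R p) * (1 - e)) := by
  have h0 : Matrix.det (e + (1 - e)) = _ :=
    Matrix.detRowAlternating.toMultilinearMap.map_add_univ e (1 - e : Matrix I I R)
  have h := h0 ▸ (show IsUnit (Matrix.det (e + (1 - e))) by simp)
  obtain ⟨S, -, hS⟩ := IsLocalRing.exists_of_isUnit_sum h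
  refine ⟨(· ∈ S), (Matrix.isUnit_iff_isUnit_det _).2 ?_⟩
  convert hS using 1
  refine congrArg Matrix.det ?_
  ext s t
  rw [sub_mul, one_mul, Matrix.add_apply, Matrix.sub_apply, dg_mul, dg_mul]
  by_cases h : s ∈ S <;> simp [h, Finset.piecewise]

/-- Permutation matrices. -/
def pm (R : Type) [CommRing R] (w : Perm I) : GL I R :=
  ⟨w⁻¹.permMatrix R, w.permMatrix R, by rw [← Matrix.permMatrix_mul]; simp,
    by rw [← Matrix.permMatrix_mul]; simp⟩

lemma mul_pm (w : Perm I) (A : Matrix I I R) : A * (pm R w).val = A.submatrix id w :=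
  PEquiv.mul_toMatrix_toPEquiv _ _

lemma mul_pm_inv (w : Perm I) (A : Matrix I I R) : A * (pm R w)⁻¹.val = A.submatrix id ⇑w⁻¹ :=
  PEquiv.mul_toMatrix_toPEquiv _ _

lemma pm_conj (w : Perm I) (g : GL I R) (s t : I) :
    ((pm R w)⁻¹ * g * pm R w).val s t = g.val (w s) (w t) := by
  rw [Units.val_mul, Units.val_mul, mul_pm]
  exact congrFun (congrFun (PEquiv.toMatrix_toPEquiv_mul w g.val) s) (w t)

lemma Blk.one : Blk b 1 := fun _ _ => Iff.rfl

lemma Blk.mul {w w' : Perm I} (h : Blk b w) (h' : Blk b w') : Blk b (w * w') := fun s t =>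
  (h _ _).trans (h' s t)

lemma Blk.inv {w : Perm I} (h : Blk b w) : Blk b w⁻¹ := fun s t => by
  rw [← h]; simp

/-- Conjugation of the Levi subgroup by a permutation matrix. -/
def tw {w : Perm I} (h : Blk b w) : Levi R b →* Levi R b where
  toFun y := ⟨(pm R w)⁻¹ * y * pm R w, fun s t e => by
    rw [pm_conj]; exact y.2 _ _ fun e' => e ((h s t).1 e')⟩
  map_one' := by ext1; simp
  map_mul' x y := by ext1; simp [mul_assoc]

lemma tw_apply {w : Perm I} (h : Blk b w) (y : Levi R b) (s t : I) :
    (tw h y).val.val s t = y.val.val (w s) (w t) := pm_conj _ _ _ _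

lemma levi_ext {x y : Levi R b} (h : ∀ s t, x.val.val s t = y.val.val s t) : x = y :=
  Subtype.ext (Units.ext (Matrix.ext h))

lemma tw_tw {w w' : Perm I} (h : Blk b w) (h' : Blk b w') (y : Levi R b) :
    tw h (tw h' y) = tw (h'.mul h) y := levi_ext fun s t => by simp [tw_apply]

lemma tw_one (y : Levi R b) : tw Blk.one y = y := levi_ext fun s t => by simp [tw_apply]

lemma tw_inv {w : Perm I} (h : Blk b w) (y : Levi R b) : tw h (tw h.inv y) = y :=
  levi_ext fun s t => by simp [tw_apply]

lemma tw_bij {w : Perm I} (h : Blk b w) : Function.Bijective (tw (R := R) h) :=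
  Function.bijective_iff_has_inverse.2 ⟨tw h.inv, tw_inv h.inv, tw_inv h⟩

lemma Blk.perm [Finite B] (hb : Function.Surjective b) {w : Perm I} (h : Blk b w) :
    ∃ π : Perm B, ∀ s, b (w s) = π (b s) := by
  have h1 : Function.Injective fun i => b (w (Function.surjInv hb i)) := fun i j e => by
    simpa [Function.surjInv_eq hb] using (h _ _).1 e
  exact ⟨Equiv.ofBijective _ (Finite.injective_iff_bijective.1 h1), fun s =>
    (h _ _).2 (Function.surjInv_eq hb _).symm⟩

/-- The commutant consists of block diagonal matrices. -/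
def Good (x : Levi R b) : Prop := ∀ A : Matrix I I R, A * x.val.val = x.val.val * A → InD b A

/-- Every idempotent that splits `x` is a sum of block identities. -/
def Prim (x : Levi R b) : Prop := ∀ e : Matrix I I R, InD b e → e * e = e →
  e * x.val.val = x.val.val * e →
  (∀ A : Matrix I I R, InD b A → e * A = A → A * e = 0 → A * x.val.val = x.val.val * A → A = 0) →
    ∃ p : I → Prop, (∀ s t, b s = b t → (p s ↔ p t)) ∧ e = dg R p

lemma Good.tw {w : Perm I} (h : Blk b w) {y : Levi R b} (hy : Good y) : Good (tw h y) := by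
  intro A hA s t e
  have h1 : (Ty.tw h y).val.val = y.val.val.submatrix w w := Matrix.ext (tw_apply h y)
  have h2 := congrArg (fun X => X.submatrix w.symm w.symm) hA
  simp only [h1, Matrix.submatrix_mul _ _ _ w.symm _ w.symm.bijective, Matrix.submatrix_submatrix,
    Equiv.self_comp_symm, Matrix.submatrix_id_id] at h2
  simpa using hy _ h2 (w s) (w t) fun e' => e ((h s t).1 e')

lemma good_tw {w : Perm I} (h : Blk b w) {y : Levi R b} : Good (tw h y) ↔ Good y :=
  ⟨fun e => by simpa [tw_inv h.inv y] using tw_inv h.inv y ▸ e.tw h.inv, Good.tw h⟩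

/-- Block monomial matrices. -/
def Mono (b : I → B) (g : GL I R) : Prop :=
  ∃ w, Blk b w ∧ ∀ u t, g.val u t ≠ 0 → b u = b (w t)

lemma fusion [Nontrivial R] [Finite B] (hb : Function.Surjective b) {x x' : Levi R b}
    (hx : Good x) (hx' : Good x') (hp : Prim x') {g : GL I R} (h : g * x = x' * g) : Mono b g := by
  have h0 : g.val * x.val.val = x'.val.val * g.val := congrArg Units.val h
  have g1 : ∀ A : Matrix I I R, g⁻¹.val * (g.val * A) = A := fun A => g.inv_mul_cancel_left A
  have g2 : ∀ A : Matrix I I R, g.val * (g⁻¹.val * A) = A := fun A => g.mul_inv_cancel_left A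
  have h1 : x.val.val * g⁻¹.val = g⁻¹.val * x'.val.val := by
    rw [← g1 (x.val.val * _), ← mul_assoc g.val, h0, mul_assoc, g.mul_inv, mul_one]
  have key : ∀ u t u' t', g.val u t ≠ 0 → g.val u' t' ≠ 0 → b u = b u' → b t = b t' := by
    intro u t u' t' n1 n2 e
    have hd : ∀ A, InD b A → dg R (b · = b t) * A = A * dg R (b · = b t) := fun A =>
      dg_comm fun s s' e => by rw [e]
    have c1 : g.val * dg R (b · = b t) * g⁻¹.val * x'.val.val =
        x'.val.val * (g.val * dg R (b · = b t) * g⁻¹.val) := by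
      rw [mul_assoc, ← h1, ← mul_assoc, mul_assoc g.val, hd _ x.2, ← mul_assoc, h0]
      simp only [mul_assoc]
    obtain ⟨p, hp1, hp2⟩ := hp _ (hx' _ c1) (by
      simp only [mul_assoc, g1]; rw [← mul_assoc (dg _ _), dg_idem]) c1 fun A _ a1 a2 a3 => by
        have a4 := hd (g⁻¹.val * A * g.val) (hx _ (by
          rw [mul_assoc, h0, ← mul_assoc, mul_assoc _ A, a3, ← mul_assoc, ← h1]
          simp only [mul_assoc]))
        rw [← a1, ← a2]
        calc _ = g.val * (dg R (b · = b t) * (g⁻¹.val * A * g.val)) * g⁻¹.val := by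
              simp only [mul_assoc, g.mul_inv, mul_one]
          _ = _ := by rw [a4]; simp only [mul_assoc, g2]
    have h2 : g.val * dg R (b · = b t) = dg R p * g.val := by
      rw [← hp2, mul_assoc, g.inv_mul, mul_one]
    have h3 := congrFun (congrFun h2 u) t
    have h4 := congrFun (congrFun h2 u') t'
    rw [mul_dg, dg_mul, if_pos rfl] at h3
    have h5 : p u := by
      by_contra h6
      exact n1 (by rw [h3, if_neg h6])
    rw [mul_dg, dg_mul, if_pos ((hp1 _ _ e).1 h5)] at h4
    by_contra h6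
    exact n2 (by rw [← h4, if_neg fun e => h6 e.symm])
  obtain ⟨w, hw⟩ := exists_perm g
  have h2 : ∀ t, b (w⁻¹ (Function.surjInv hb (b (w t)))) = b t := fun t =>
    key _ _ _ _ (by simpa using hw (w⁻¹ (Function.surjInv hb (b (w t))))) (hw t)
      (Function.surjInv_eq hb _)
  have h3 : Function.Injective fun i => b (w⁻¹ (Function.surjInv hb i)) :=
    Finite.injective_iff_surjective.2 fun i => by
      obtain ⟨t, rfl⟩ := hb i
      exact ⟨_, h2 t⟩
  have h4 : Blk b w := fun s t =>
    ⟨key _ _ _ _ (hw s) (hw t), fun e => h3 (by simp only [h2, e])⟩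
  refine ⟨w, h4, fun u t n => ?_⟩
  obtain ⟨u, rfl⟩ := w.surjective u
  exact (h4 _ _).2 (key _ _ _ _ (hw u) n rfl)

end Pool.Agent.P.MP_7cb106_nt.Ty
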