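import Pool.Agent.P.MP_7cb106_nt.Ty.Dec
import Pool.Agent.P.MP_7cb106_nt.Ty.Mat

/-! Jacquet modules and cuspidal characters over a finite ring. -/

set_option autoImplicit false
set_option linter.unusedSectionVars false

namespace Pool.Agent.P.MP_7cb106_nt.Ty

open Module Representation Finset
open Equiv (Perm)
open scoped ComplexConjugate Classical

variable {R I B U V : Type} [CommRing R] [Fintype I] [DecidableEq I] {b : I → B}
  [Fintype (GL I R)] [AddCommGroup U] [Module ℂ U] [FiniteDimensional ℂ U]
  [AddCommGroup V] [Module ℂ V] [FiniteDimensional ℂ V]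

def radM (R : Type) [CommRing R] {S : I → I → Prop} (hS : ∀ s u t, S s u → S u t → S s t) :
    Submonoid (GL I R) where
  carrier := {g | Rad S g}
  mul_mem' := fun {g h} hg hh => rad_iff.2 <| by
    have := (((rad_iff.1 hg).mul (rad_iff.1 hh) hS).add (rad_iff.1 hg)).add (rad_iff.1 hh)
    convert this using 1
    rw [Units.val_mul]
    noncomm_ring
  one_mem' := fun _ _ _ => rfl

def radG (R : Type) [CommRing R] [Fintype (GL I R)] {S : I → I → Prop}
    (hS : ∀ s u t, S s u → S u t → S s t) : Subgroup (GL I R) where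
  toSubmonoid := radM R hS
  inv_mem' := fun {g} hg => Submonoid.powers_le.2 (show g ∈ radM R hS from hg)
    (mem_powers_iff_mem_zpowers.2 (inv_mem (Subgroup.mem_zpowers g)))

lemma Rad.conj {S : I → I → Prop} (hS : ∀ s s' t t', b s = b s' → b t = b t' → S s t → S s' t')
    {g : GL I R} (hg : Rad S g) (y : Levi R b) : Rad S (y.val⁻¹ * g * y.val) := rad_iff.2 <| by
  have h1 : Supp S (y⁻¹.val.val * (g.val - 1)) := Supp.mul (S := fun s t => b s = b t) y⁻¹.2
    (rad_iff.1 hg) fun s u t e => hS _ _ _ _ e.symm rfl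
  convert Supp.mul (S' := fun s t => b s = b t) (S'' := S) h1 y.2
    fun s u t h e => hS _ _ _ _ rfl e h using 1
  simp [mul_sub, sub_mul]

lemma irr_tw (lam : Representation ℂ (Levi R b) U) [h0 : lam.IsIrreducible] {w : Perm I}
    (h : Blk b w) : IsIrreducible (lam.comp (tw h)) := by
  let e : Subrepresentation (lam.comp (tw h)) ≃o Subrepresentation lam :=
    { toFun := fun X => ⟨X.toSubmodule, fun g v hv => by
        simpa [tw_inv] using X.apply_mem_toSubmodule (tw h.inv g) hv⟩
      invFun := fun X => ⟨X.toSubmodule, fun g v hv => X.apply_mem_toSubmodule _ hv⟩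
      left_inv := fun _ => rfl
      right_inv := fun _ => rfl
      map_rel_iff' := Iff.rfl }
  exact e.isSimpleOrder

lemma Cusp.tw {lam : Representation ℂ (Levi R b) U} (hc : Cusp lam) {w : Perm I}
    (h : Blk b w) : Cusp (lam.comp (tw h)) := by
  rintro S ⟨s, t, e, hs, ht⟩ u hu
  refine hc {s | w s ∈ S} ⟨w⁻¹ s, w⁻¹ t, (h.inv _ _).2 e, by simpa, by simpa⟩ u fun x hx => ?_
  simpa [tw_inv] using hu (Ty.tw h.inv x) fun s t e => by
    rw [tw_apply, hx _ _ (by simpa using e)]
    simp [Matrix.one_apply]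

lemma one_sub_iff {A : Type} [Ring A] {e y : A} : (1 - e) * y = 1 - e ↔ e * (y - 1) = y - 1 := by
  rw [← sub_eq_zero, ← neg_eq_zero, ← sub_eq_zero (a := e * (y - 1))]
  exact Eq.congr_left (by noncomm_ring)

lemma char_zero_of_not_prim [IsLocalRing R] {lam : Representation ℂ (Levi R b) U} (hc : Cusp lam)
    {x : Levi R b} (hx : ¬ Prim x) : lam.character x = 0 := by
  simp only [Prim, not_forall] at hx
  obtain ⟨e, e1, e2, e3, e4, e5⟩ := hx
  obtain ⟨p, v, hv⟩ := exists_dg e
  let v' : Levi R b := ⟨v, show InD b v.val from hv ▸ ((inD_dg p).mul e1).add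
    (InD.mul (inD_one.sub (inD_dg p)) (inD_one.sub e1))⟩
  have h1 : v.val * e = dg R p * v.val := by
    rw [hv, add_mul, mul_add, mul_assoc, mul_assoc, e2, sub_mul _ e, one_mul, e2, sub_self,
      mul_zero, ← mul_assoc, ← mul_assoc, dg_idem, mul_one_sub (dg R p), dg_idem, sub_self,
      zero_mul]
  have h2 : ∃ s t, b s = b t ∧ p s ∧ ¬ p t := by
    by_contra! h
    have h3 : ∀ s t, b s = b t → (p s ↔ p t) := fun s t e => ⟨h s t e, h t s e.symm⟩
    exact e5 ⟨p, h3, v.mul_right_inj.1 (h1.trans (dg_comm h3 v'.2))⟩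
  let H : Subgroup (Levi R b) :=
    { carrier := {y | y.val.val * e = e ∧ (1 - e) * y.val.val = 1 - e}
      mul_mem' := fun {y z} hy hz => ⟨by
        rw [Subgroup.coe_mul, Units.val_mul, mul_assoc, hz.1, hy.1], by
        rw [Subgroup.coe_mul, Units.val_mul, ← mul_assoc, hy.2, hz.2]⟩
      one_mem' := ⟨one_mul _, mul_one _⟩
      inv_mem' := fun {y} hy => ⟨(Units.inv_mul_eq_iff_eq_mul _).2 hy.1.symm,
        (Units.mul_inv_eq_iff_eq_mul _).2 hy.2.symm⟩ }
  have e6 : (1 - e) * x.val⁻¹.val = x.val⁻¹.val * (1 - e) :=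
    ((Commute.one_left _).sub_left e3).units_inv_right
  refine char_zero_of_split lam H (fun y hy => ⟨?_, ?_⟩) (fun y hy h => ?_) fun u hu => ?_
  · simp only [Subgroup.coe_mul, Units.val_mul, Subgroup.coe_inv]
    rw [mul_assoc, ← e3, mul_assoc, ← mul_assoc y.val.val, hy.1, e3, Units.inv_mul_cancel_left]
  · simp only [Subgroup.coe_mul, Units.val_mul, Subgroup.coe_inv]
    rw [← mul_assoc, ← mul_assoc, e6, mul_assoc _ (1 - e), hy.2, ← e6, Units.inv_mul_cancel_right]
  · have h3 : y.val.val * x.val.val = x.val.val * y.val.val := congrArg (fun z => z.val.val) h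
    have := e4 (y.val.val - 1) (Supp.sub y.2 inD_one) (one_sub_iff.1 hy.2)
      (by rw [sub_mul, hy.1, one_mul, sub_self]) (by rw [sub_mul, mul_sub, h3, one_mul, mul_one])
    exact Subtype.ext (Units.ext (sub_eq_zero.1 this))
  · have := hc {s | p s} h2 (lam v' u) fun y hy => by
      have h3 := rad_iff.1 hy
      have h4 : (y.val.val - 1) * dg R p = 0 := by
        ext s t
        rw [mul_dg]
        split_ifs with h
        exacts [h3 s t fun h' => h'.2 h, rfl]
      have h5 : dg R p * (y.val.val - 1) = y.val.val - 1 := by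
        ext s t
        rw [dg_mul]
        split_ifs with h
        exacts [rfl, (h3 s t fun h' => h h'.1).symm]
      have h6 : e * v⁻¹.val = v⁻¹.val * dg R p := by
        rw [Units.eq_inv_mul_iff_mul_eq, ← mul_assoc, h1, Units.mul_inv_cancel_right]
      have h7 := hu (v'⁻¹ * y * v') ⟨?_, ?_⟩
      · conv_rhs => rw [← h7]
        simp [← Module.End.mul_apply, ← map_mul, ← mul_assoc]
      · show v⁻¹.val * y.val.val * v.val * e = e
        rw [sub_mul, one_mul, sub_eq_zero] at h4
        rw [mul_assoc, h1, ← mul_assoc, mul_assoc _ y.val.val, h4, ← h6, Units.inv_mul_cancel_right]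
      · show (1 - e) * (v⁻¹.val * y.val.val * v.val) = 1 - e
        rw [← mul_assoc, ← mul_assoc, sub_mul, one_mul, h6, ← mul_one_sub, mul_assoc _ _ y.val.val,
          one_sub_iff.2 h5, mul_one_sub, ← h6, ← one_sub_mul, Units.inv_mul_cancel_right]
    simpa [← Module.End.mul_apply, ← map_mul] using congrArg (lam v'⁻¹) this

variable [Preorder B]

/-- The unipotent radical of the standard parabolic subgroup. -/
def radN (R : Type) [CommRing R] [Fintype (GL I R)] (b : I → B) : Subgroup (GL I R) :=
  radG R (S := fun s t => b s < b t) fun _ _ _ => lt_trans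

lemma radN_conj {g : GL I R} (hg : g ∈ radN R b) (y : Levi R b) :
    y.val⁻¹ * g * y.val ∈ radN R b := Rad.conj (fun _ _ _ _ e e' h => e ▸ e' ▸ h) hg y

/-- The vectors fixed by the unipotent radical. -/
def jacS (b : I → B) (σ : Representation ℂ (GL I R) V) :
    Subrepresentation (σ.comp (Levi R b).subtype) where
  toSubmodule :=
    { carrier := {v | Fixed b σ v}
      add_mem' := fun h h' g hg => by rw [map_add, h g hg, h' g hg]
      zero_mem' := fun _ _ => map_zero _
      smul_mem' := fun c v h g hg => by rw [map_smul, h g hg] }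
  apply_mem_toSubmodule := fun y v hv g hg => by
    conv_rhs => rw [← hv _ (radN_conj hg y)]
    simp [← Module.End.mul_apply, ← map_mul, ← mul_assoc]

lemma char_good (σ : Representation ℂ (GL I R) V) {y : Levi R b} (hy : Good y) :
    σ.character y = (jacS b σ).toRepresentation.character y := by
  rw [char_split σ (radN R b) (fun h hh => radN_conj hh y) fun h hh e => ?_,
    ← LinearMap.trace_restrict_eq_of_forall_mem (jacS b σ).toSubmodule _ fun v =>
      (jacS b σ).apply_mem_toSubmodule y (v := averageMap (σ.comp (radN R b).subtype) v) fun g hg =>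
        averageMap_invariant (σ.comp (radN R b).subtype) v ⟨g, hg⟩]
  · refine congrArg (LinearMap.trace ℂ _) (LinearMap.ext fun v => Subtype.ext ?_)
    exact congrArg (σ y) (averageMap_id (σ.comp (radN R b).subtype) v fun g => v.2 g g.2)
  · refine Units.ext (Matrix.ext fun s t => ?_)
    by_cases h1 : b s < b t
    · rw [hy _ (congrArg Units.val e) s t h1.ne]
      exact (inD_one s t h1.ne).symm
    · exact hh s t h1

lemma jac_span {lam : Representation ℂ (Levi R b) U} [lam.IsIrreducible]
    {σ : Representation ℂ (GL I R) V} (h : Pure lam σ) :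
    (jacS b σ).toRepresentation.character ∈ Submodule.span ℂ
      (Set.range fun w : {w // Blk b w} => character (lam.comp (tw w.2))) := by
  refine char_mem_span _ (fun w => irr_tw lam w.2) _ fun X h1 h2 => ?_
  obtain ⟨w, hw, T, hT, h3, h4⟩ := h.2 (X.map (jacS b σ).toSubmodule.subtype)
    (fun e => h1 (Submodule.map_injective_of_injective (jacS b σ).toSubmodule.injective_subtype
      (e.trans (Submodule.map_bot _).symm))) (by rintro _ ⟨v, -, rfl⟩; exact v.2)
    (by rintro y _ ⟨v, hv, rfl⟩; exact ⟨_, h2 y v hv, rfl⟩)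
  refine ⟨⟨w, hw⟩, T.codRestrict _ hT.1, fun e => h3 ?_, fun u => ?_, fun y u => ?_⟩
  · ext u
    exact congrArg (fun f => (f u).val) e
  · obtain ⟨v, hv, e⟩ := h4 u
    rwa [show T.codRestrict _ hT.1 u = v from Subtype.ext e.symm]
  · exact Subtype.ext (hT.2 _ y (tw_apply hw y) u)

lemma jac_ne {lam : Representation ℂ (Levi R b) U} {σ : Representation ℂ (GL I R) V}
    (h : Pure lam σ) : (jacS b σ).toRepresentation.character 1 ≠ 0 := by
  obtain ⟨v, h1, h2⟩ := h.1
  rw [char_one, Nat.cast_ne_zero, Ne, Submodule.finrank_eq_zero]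
  exact fun e => h1 ((Submodule.eq_bot_iff _).1 e v h2)

lemma jac_mult (lam : Representation ℂ (Levi R b) U) (σ : Representation ℂ (GL I R) V)
    {w : Perm I} (hw : Blk b w) :
    finrank ℂ (IntertwiningMap (lam.comp (tw hw)) (jacS b σ).toRepresentation) =
      finrank ℂ (HomP lam σ w) :=
  LinearEquiv.finrank_eq
    { toFun := fun T => ⟨(jacS b σ).toSubmodule.subtype ∘ₗ T.toLinearMap, fun u => (T u).2,
        fun x y e u => by
          rw [levi_ext (y := tw hw y) fun s t => (e s t).trans (tw_apply hw y s t).symm]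
          exact congrArg Subtype.val (T.isIntertwining _ _ y u)⟩
      invFun := fun T => ⟨T.val.codRestrict _ T.2.1, fun y =>
        LinearMap.ext fun u => Subtype.ext (T.2.2 _ y (tw_apply hw y) u)⟩
      map_add' := fun _ _ => rfl
      map_smul' := fun _ _ => rfl
      left_inv := fun _ => rfl
      right_inv := fun _ => rfl }

end Pool.Agent.P.MP_7cb106_nt.Ty
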