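import Pool.Agent.P.MP_7cb106_nt.Ty.Bad

/-! Near orthogonality of the conjugate characters on the good elements. -/

set_option autoImplicit false
set_option linter.unusedSectionVars false

namespace Pool.Agent.P.MP_7cb106_nt.Ty

open Module Representation Finset IsLocalRing
open Equiv (Perm)
open scoped ComplexConjugate Classical

variable {R I B U : Type} [CommRing R] [Fintype I] [DecidableEq I] {b : I → B}
  [Fintype (GL I R)] [AddCommGroup U] [Module ℂ U] [FiniteDimensional ℂ U]

/-- The elements of the Levi subgroup that are trivial on the blocks outside `P`. -/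
def blk (R : Type) [CommRing R] [Fintype (GL I R)] (b : I → B) (P : B → Prop) :
    Subgroup (Levi R b) :=
  (radG R (S := fun s t => P (b s) ∧ P (b t)) fun _ _ _ h h' => ⟨h.1, h'.2⟩).comap
    (Levi R b).subtype

lemma mem_blk {P : B → Prop} {y : Levi R b} :
    y ∈ blk R b P ↔ ∀ s t, ¬ (P (b s) ∧ P (b t)) → y.val.val s t = (1 : Matrix I I R) s t := Iff.rfl

lemma blk_mono {P Q : B → Prop} (h : ∀ l, P l → Q l) : blk R b P ≤ blk R b Q :=
  fun _ hy s t e => hy s t fun e' => e ⟨h _ e'.1, h _ e'.2⟩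

lemma blk_comm' {P Q : B → Prop} (h : ∀ l, P l → ¬ Q l) {x : Levi R b} (hx : x ∈ blk R b P)
    {A : Matrix I I R} (hA : Supp (fun s t => Q (b s) ∧ Q (b t)) A) :
    x.val.val * A = A * x.val.val := by
  have h1 : (x.val.val - 1) * A = 0 := Matrix.ext fun s t =>
    Supp.mul (S'' := fun _ _ => False) (rad_iff.1 hx) hA (fun _ _ _ e e' => h _ e.2 e'.1) s t id
  have h2 : A * (x.val.val - 1) = 0 := Matrix.ext fun s t =>
    Supp.mul (S'' := fun _ _ => False) hA (rad_iff.1 hx) (fun _ _ _ e e' => h _ e'.1 e.2) s t id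
  rw [sub_mul, one_mul, sub_eq_zero] at h1
  rw [mul_sub, mul_one, sub_eq_zero] at h2
  rw [h1, h2]

lemma blk_comm {P Q : B → Prop} (h : ∀ l, P l → ¬ Q l) {x y : Levi R b} (hx : x ∈ blk R b P)
    (hy : y ∈ blk R b Q) : Commute x y := by
  have : x.val.val * (y.val.val - 1) = (y.val.val - 1) * x.val.val := blk_comm' h hx (rad_iff.1 hy)
  rw [mul_sub, sub_mul, mul_one, one_mul, sub_left_inj] at this
  exact Subtype.ext (Units.ext this)

lemma blk_split (P : B → Prop) (g : Levi R b) :
    ∃ a ∈ blk R b P, ∃ y ∈ blk R b (fun l => ¬ P l), g = a * y := by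
  set e := dg R fun s => P (b s) with he
  have h1 : ∀ A, InD b A → e * A = A * e := fun A => dg_comm fun s t h => by rw [h]
  have h2 : e * e = e := dg_idem _
  have h3 : ∀ x : Levi R b, (e * x.val.val + (1 - e)) * (e * x⁻¹.val.val + (1 - e)) = 1 := by
    intro x
    have : x.val.val * e = e * x.val.val := (h1 _ x.2).symm
    simp only [add_mul, mul_add, mul_sub, sub_mul, mul_assoc, this, mul_one, one_mul, h2,
      ← mul_assoc x.val.val, ← mul_assoc e e, Subgroup.coe_inv, Units.mul_inv]
    abel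
  let a : Levi R b := ⟨⟨_, _, h3 g, h3 g⁻¹⟩,
    Supp.add ((inD_dg _).mul g.2) (inD_one.sub (inD_dg _))⟩
  refine ⟨a, rad_iff.2 fun s t h => ?_, a⁻¹ * g, rad_iff.2 fun s t h => ?_, by simp⟩
  · have : a.val.val - 1 = e * (g.val.val - 1) := by simp only [a]; noncomm_ring
    rw [Subgroup.coe_subtype, this, dg_mul]
    split_ifs with h'
    exacts [Supp.sub g.2 inD_one s t fun e => h ⟨h', e ▸ h'⟩, rfl]
  · have : (a⁻¹ * g).val.val - 1 = (g.val.val - 1) - e * (g.val.val - 1) := by
      show (e * g.val⁻¹.val + (1 - e)) * g.val.val - 1 = _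
      rw [add_mul, mul_assoc, Units.inv_mul]
      noncomm_ring
    rw [Subgroup.coe_subtype, this, Matrix.sub_apply, dg_mul]
    split_ifs with h'
    exacts [sub_self _, (sub_zero _).trans (Supp.sub g.2 inD_one s t fun e => h ⟨h', e ▸ h'⟩)]

lemma blk_fac (P : B → Prop) : Fac (blk R b P) := fun g => by
  obtain ⟨a, ha, y, hy, e⟩ := blk_split P g
  exact ⟨a, ha, y, fun h hh => blk_comm (fun _ => not_not.2) hh hy, e⟩

lemma bad_mul {i j : B} {h y : Levi R b} (hh : h ∈ blk R b fun l => l ≠ i ∧ l ≠ j) :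
    Bad i j (h * y) ↔ Bad i j y := by
  refine exists_congr fun A => and_congr_right fun _ => and_congr_right fun hA => ?_
  have := blk_comm' (Q := fun l => l = i ∨ l = j) (by tauto) hh (A := A)
    fun s t e => hA s t fun e' => e ⟨.inl e'.1, .inr e'.2⟩
  rw [Subgroup.coe_mul, Units.val_mul, ← mul_assoc, ← this, mul_assoc, mul_assoc,
    Units.mul_right_inj]

lemma agree_of_bad (ρ σ : Representation ℂ (Levi R b) U) [ρ.IsIrreducible] [σ.IsIrreducible]
    {i j : B} (h : ∑ y with Bad i j y, σ.character y * conj (ρ.character y) ≠ 0) {l : B}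
    (hi : l ≠ i) (hj : l ≠ j) {a : Levi R b} (ha : a ∈ blk R b (· = l)) :
    ρ.character a = σ.character a := by
  set H := blk R b fun l => l ≠ i ∧ l ≠ j
  refine (blk_fac _).agree (H := H) (blk_mono (P := (· = l)) fun _ e => e ▸ ⟨hi, hj⟩) ρ σ (fun h0 => h ?_) ha
  have h1 : ∀ y, ∑ g : H, σ.character (g * y) * conj (ρ.character (g * y)) = 0 := fun y => by
    obtain ⟨a, ha, k, hk, rfl⟩ := blk_fac _ y
    refine mul_left_cancel₀ (mul_ne_zero (char_one_ne σ) ((map_ne_zero conj).2 (char_one_ne ρ))) ?_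
    rw [mul_zero, ← mul_zero (σ.character k * conj (ρ.character k)), ← h0, mul_sum, mul_sum]
    refine Fintype.sum_equiv (Equiv.mulRight (⟨a, ha⟩ : H)) _ _ fun g => ?_
    rw [mul_mul_mul_comm, ← map_mul, ← mul_assoc g.val, (blk_fac _).mul σ (H.mul_mem g.2 ha) hk,
      (blk_fac _).mul ρ (H.mul_mem g.2 ha) hk, map_mul]
    simp only [Equiv.coe_mulRight, Subgroup.coe_mul]
    ring
  have h2 : ∀ g : H, ∑ y with Bad i j y, σ.character y * conj (ρ.character y) =
      ∑ y with Bad i j y, σ.character (g.val * y) * conj (ρ.character (g.val * y)) := fun g => by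
    rw [sum_filter, sum_filter]
    exact (Fintype.sum_equiv (Equiv.mulLeft g.val) _ _ fun y => by simp [bad_mul g.2]).symm
  refine mul_left_cancel₀ (card_ne (G := H)) ?_
  rw [← nsmul_eq_mul, ← card_univ, ← sum_const, sum_congr rfl fun g _ => h2 g, sum_comm]
  simp [h1]

lemma char_ext [Fintype B] (ρ σ : Representation ℂ (Levi R b) U) [ρ.IsIrreducible]
    [σ.IsIrreducible] (h : ∀ l, ∀ a ∈ blk R b (· = l), ρ.character a = σ.character a) :
    ρ.character = σ.character := by
  have h1 : ρ.character 1 = σ.character 1 := by rw [char_one, char_one]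
  have key : ∀ S : Finset B, ∀ y ∈ blk R b (· ∈ S), ρ.character y = σ.character y := by
    intro S
    induction S using Finset.induction_on with
    | empty => intro y hy; rw [show y = 1 from levi_ext fun s t => hy s t (by simp), h1]
    | insert l S _ ih =>
      intro y hy
      obtain ⟨a, ha, k, hk, rfl⟩ := blk_split (· = l) y
      have h2 := (Subgroup.mul_mem_cancel_left _ (blk_mono (Q := (· ∈ insert l S))
        (fun _ (e : _ = l) => e ▸ mem_insert_self _ _) ha)).1 hy
      have h3 : ∀ h ∈ blk R b (· = l), Commute h k := fun h hh => blk_comm (fun _ => not_not.2) hh hk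
      refine mul_left_cancel₀ (char_one_ne σ) ?_
      rw [(blk_fac _).mul σ ha h3, ← h1, (blk_fac _).mul ρ ha h3, h l a ha, ih k fun s t e => ?_]
      by_contra h4
      have h5 := not_imp_comm.1 (h2 s t) h4
      have h6 := not_imp_comm.1 (hk s t) h4
      simp only [mem_insert] at h5
      tauto
  exact funext fun y => key univ y fun s t e => absurd ⟨mem_univ _, mem_univ _⟩ e

lemma tw_blk {w : Perm I} (hw : Blk b w) {l l' : B} (h : ∀ s, b (w s) = l ↔ b s = l')
    {y : Levi R b} (hy : y ∈ blk R b (· = l)) : tw hw y ∈ blk R b (· = l') :=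
  mem_blk.2 fun s t e => by
    rw [tw_apply, mem_blk.1 hy _ _ (by simpa only [h] using e)]
    simp [Matrix.one_apply]

lemma char_tw_inner (ρ : Representation ℂ (Levi R b) U) {w : Perm I} (hw : Blk b w) {l : B}
    (h : ∀ s, b (w s) = l ↔ b s = l) {y : Levi R b} (hy : y ∈ blk R b (· = l)) :
    ρ.character (tw hw y) = ρ.character y := by
  let v := Perm.ofSubtype (w.subtypePerm (p := (b · = l)) h)
  have h1 : ∀ s, b s = l → v s = w s := fun s => Perm.ofSubtype_subtypePerm_of_mem (p := (b · = l)) h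
  have h2 : ∀ s, b (v s) = b s := fun s => by
    by_cases e : b s = l
    · rw [h1 s e, e, h, e]
    · rw [Perm.ofSubtype_apply_of_not_mem (p := (b · = l)) _ e]
  let m : Levi R b := ⟨pm R v, fun s t e => by
    rw [← one_mul (pm R v).val, mul_pm]
    exact inD_one (b := b) s (v t) fun e' => e (e'.trans (h2 t))⟩
  rw [← char_conj ρ y m⁻¹, inv_inv]
  refine congrArg _ (levi_ext fun s t => ?_)
  rw [tw_apply, Subgroup.coe_mul, Subgroup.coe_mul, Subgroup.coe_inv, pm_conj v y.val s t]
  by_cases e : b s = l ∧ b t = l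
  · rw [h1 s e.1, h1 t e.2]
  · rw [mem_blk.1 hy _ _ (by simpa only [h] using e), mem_blk.1 hy _ _ (by simpa only [h2] using e)]
    simp [Matrix.one_apply]

/-- The restriction of `f` to the block `l`, up to renumbering. -/
def col (f : Levi R b → ℂ) (l : B) : Set (B × (Levi R b → ℂ)) :=
  {q | ∃ v, ∃ hv : Blk b v, (∀ s, b (v s) = q.1 ↔ b s = l) ∧
    ∀ y ∈ blk R b (· = q.1), f (tw hv y) = q.2 y}

lemma col_congr {f f' : Levi R b → ℂ} {l : B} (h : ∀ y ∈ blk R b (· = l), f y = f' y) :
    col f l = col f' l := Set.ext fun _ => exists₂_congr fun _ hv => and_congr_right fun e =>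
  forall₂_congr fun _ hy => by rw [h _ (tw_blk hv e hy)]

lemma col_tw (f : Levi R b → ℂ) {w : Perm I} (hw : Blk b w) {π : Perm B}
    (h : ∀ s, b (w s) = π (b s)) (l : B) : col (fun y => f (tw hw y)) l = col f (π⁻¹ l) := by
  ext q
  constructor
  · rintro ⟨v, hv, e, e'⟩
    exact ⟨v * w, hv.mul hw, fun s => by rw [Perm.mul_apply, e, h, Perm.eq_inv_iff_eq],
      fun y hy => by rw [← tw_tw]; exact e' y hy⟩
  · rintro ⟨v, hv, e, e'⟩
    refine ⟨v * w⁻¹, hv.mul hw.inv, fun s => ?_, fun y hy => ?_⟩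
    · rw [Perm.mul_apply, e, Perm.eq_inv_iff_eq, ← h]
      simp
    · simp only [← tw_tw hw.inv hv, tw_inv]
      exact e' y hy

lemma agree_of_col (ρ : Representation ℂ (Levi R b) U) {f : Levi R b → ℂ} {l : B}
    (h : col f l = col ρ.character l) : ∀ y ∈ blk R b (· = l), f y = ρ.character y := by
  have : (l, f) ∈ col f l := ⟨1, Blk.one, fun _ => Iff.rfl, fun y _ => by rw [tw_one]⟩
  rw [h] at this
  obtain ⟨v, hv, e, e'⟩ := this
  exact fun y hy => (e' y hy).symm.trans (char_tw_inner ρ hv e hy)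

lemma rearr [Fintype B] {C : Type} (f : B → C) (τ : Perm B) {i j : B} (hij : i ≠ j)
    (h : ∀ l, l ≠ i → l ≠ j → f (τ l) = f l) :
    (f (τ i) = f i ∨ f (τ i) = f j) ∧ (f (τ i) = f i → f (τ j) = f j) := by
  have key : ∀ c, ((if f (τ i) = c then 1 else 0) - (if f i = c then 1 else 0) : ℤ) +
      ((if f (τ j) = c then 1 else 0) - (if f j = c then 1 else 0)) = 0 := fun c => by
    rw [← Fintype.sum_eq_add (f := fun l => ((if f (τ l) = c then 1 else 0) -
      (if f l = c then 1 else 0) : ℤ)) i j hij fun l e => by rw [h l e.1 e.2, sub_self],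
      sum_sub_distrib, sub_eq_zero]
    exact Equiv.sum_comp τ fun l => if f l = c then (1 : ℤ) else 0
  constructor
  · by_contra! h0
    have := key (f (τ i))
    rw [if_pos rfl, if_neg h0.1.symm, if_neg h0.2.symm] at this
    split_ifs at this <;> omega
  · intro h0
    have := key (f j)
    rw [h0, sub_self, if_pos rfl] at this
    split_ifs at this with h1
    exacts [h1, by omega]

/-- The characters of the conjugates of `lam`. -/
noncomputable def Lam (lam : Representation ℂ (Levi R b) U) : Finset (Levi R b → ℂ) :=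
  univ.image fun w : {w // Blk b w} => character (lam.comp (tw w.2))

lemma mem_Lam {lam : Representation ℂ (Levi R b) U} {f : Levi R b → ℂ} :
    f ∈ Lam lam ↔ ∃ w, ∃ hw : Blk b w, character (lam.comp (tw hw)) = f := by simp [Lam]

lemma rel_col [Fintype B] (hb : Function.Surjective b) (lam : Representation ℂ (Levi R b) U)
    [lam.IsIrreducible] {f f' : Levi R b → ℂ} (hf : f ∈ Lam lam) (hf' : f' ∈ Lam lam) {i j : B}
    (hij : i ≠ j) (h : ∀ l, l ≠ i → l ≠ j → ∀ y ∈ blk R b (· = l), f' y = f y) :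
    (col f' i = col f i ∨ col f' i = col f j) ∧ (col f' i = col f i → f' = f) := by
  obtain ⟨w, hw, rfl⟩ := mem_Lam.1 hf
  obtain ⟨w', hw', rfl⟩ := mem_Lam.1 hf'
  obtain ⟨π, hπ⟩ := (hw'.mul hw.inv).perm hb
  have h1 := fun l => col_tw (character (lam.comp (tw hw))) (hw'.mul hw.inv) hπ l
  have h2 : (fun y => character (lam.comp (tw hw)) (tw (hw'.mul hw.inv) y)) =
      character (lam.comp (tw hw')) := funext fun y => by
    show lam.character (tw hw _) = lam.character (tw hw' y)
    rw [← tw_tw hw.inv hw', tw_inv]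
  rw [h2] at h1
  have h3 := rearr (col (character (lam.comp (tw hw)))) π⁻¹ hij fun l hi hj => by
    rw [← h1, col_congr (h l hi hj)]
  rw [← h1, ← h1] at h3
  refine ⟨h3.1, fun e => ?_⟩
  have := irr_tw lam hw
  have := irr_tw lam hw'
  refine char_ext _ _ fun l => ?_
  by_cases hi : l = i
  · exact agree_of_col _ (hi ▸ e)
  by_cases hj : l = j
  · exact agree_of_col _ (hj ▸ h3.2 e)
  exact h l hi hj

lemma near [IsLocalRing R] [Finite (ResidueField R)] [Fintype B] (hb : Function.Surjective b)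
    (lam : Representation ℂ (Levi R b) U) [lam.IsIrreducible] (c : (Levi R b → ℂ) → ℂ) :
    (Nat.card (ResidueField R) - 1 : ℝ) * ∑ y with ¬ Good y, ‖∑ f ∈ Lam lam, c f * f y‖ ^ 2 ≤
      2 * (Fintype.card I * (Fintype.card I - 1 : ℕ)) * Fintype.card (Levi R b) *
        ∑ f ∈ Lam lam, ‖c f‖ ^ 2 := by
  have hq : (0 : ℝ) < Nat.card (ResidueField R) - 1 :=
    sub_pos.2 (Nat.one_lt_cast.2 Finite.one_lt_card)
  have h1 : ∀ p ∈ (univ : Finset B).offDiag, (Nat.card (ResidueField R) - 1 : ℝ) *
      ∑ y with Bad p.1 p.2 y, ‖∑ f ∈ Lam lam, c f * f y‖ ^ 2 ≤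
      #{x : I × I | (b x.1, b x.2) = p} * (2 * Fintype.card (Levi R b) *
        ∑ f ∈ Lam lam, ‖c f‖ ^ 2) := by
    intro p hp
    have hij := (mem_offDiag.1 hp).2.2
    have := sq_near {y | Bad p.1 p.2 y} (Lam lam) (fun f => f) c
      (#{x : I × I | b x.1 = p.1 ∧ b x.2 = p.2} * Fintype.card (Levi R b) /
        (Nat.card (ResidueField R) - 1)) (fun f hf => ?_) fun f hf => ?_
    · rw [← le_div_iff₀' hq]
      refine this.trans_eq ?_
      simp only [Prod.ext_iff]
      ring
    · obtain ⟨w, hw, rfl⟩ := mem_Lam.1 hf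
      have := irr_tw lam hw
      exact (le_div_iff₀' hq).2 (bad_mass _ hij)
    · have h2 : ∀ f' ∈ Lam lam, ∑ y with Bad p.1 p.2 y, f y * conj (f' y) ≠ 0 →
          ∀ l, l ≠ p.1 → l ≠ p.2 → ∀ y ∈ blk R b (· = l), f' y = f y := by
        intro f' hf' h l hi hj y hy
        obtain ⟨w, hw, rfl⟩ := mem_Lam.1 hf
        obtain ⟨w', hw', rfl⟩ := mem_Lam.1 hf'
        have := irr_tw lam hw
        have := irr_tw lam hw'
        exact agree_of_bad _ _ h hi hj hy
      refine (card_le_card_of_injOn (t := {col f p.1, col f p.2}) (fun f' => col f' p.1)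
        (fun f' h => ?_) fun f' h f'' h' e => ?_).trans card_le_two
      · rw [mem_coe, mem_filter] at h
        simpa using (rel_col hb lam hf h.1 hij (h2 _ h.1 h.2)).1
      · rw [mem_coe, mem_filter] at h h'
        exact (rel_col hb lam h'.1 h.1 hij fun l hi hj y hy =>
          (h2 _ h.1 h.2 l hi hj y hy).trans (h2 _ h'.1 h'.2 l hi hj y hy).symm).2 e
  have h2 := sum_le_sum h1
  rw [← mul_sum, ← sum_mul, ← Nat.cast_sum, sum_card_fiberwise_eq_card_filter] at h2
  refine (mul_le_mul_of_nonneg_left ?_ hq.le).trans (h2.trans ?_)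
  · simp only [sum_filter]
    rw [sum_comm]
    refine sum_le_sum fun y _ => ?_
    split_ifs with h
    · exact sum_nonneg fun _ _ => by positivity
    · obtain ⟨i, j, hij, h3⟩ := bad_of_not_good h
      refine le_trans ?_ (single_le_sum (a := (i, j)) (fun _ _ => by positivity) (by simpa))
      rw [if_pos h3]
  · have h3 : #{x : I × I | (b x.1, b x.2) ∈ (univ : Finset B).offDiag} ≤
        Fintype.card I * (Fintype.card I - 1) := by
      rw [Nat.mul_sub_one, ← card_univ, ← offDiag_card]
      exact card_le_card fun x hx => by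
        simpa using fun e => (mem_offDiag.1 (mem_filter.1 hx).2).2.2 (congrArg b e)
    refine (mul_le_mul_of_nonneg_right (Nat.cast_le.2 h3) (by positivity)).trans_eq ?_
    push_cast
    ring

end Pool.Agent.P.MP_7cb106_nt.Ty
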