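import Pool.Agent.P.MP_7cb106_nt.Ty.Fin

/-! Reduction from a local ring to a finite quotient. -/

set_option autoImplicit false
set_option linter.unusedSectionVars false

namespace Pool.Agent.P.MP_7cb106_nt.Ty

open Module Representation Finset IsLocalRing
open Equiv (Perm)
open Matrix.GeneralLinearGroup (map)
open scoped Classical

variable {O R I B U V : Type} [CommRing O] [CommRing R] [Fintype I] [DecidableEq I] {b : I → B}
  [AddCommGroup U] [Module ℂ U] [AddCommGroup V] [Module ℂ V] {φ : O →+* R}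

lemma descend {H H' : Type} [Group H] [Group H'] (f : H →* H') (hf : Function.Surjective f)
    (ρ : Representation ℂ H V) (h : ∀ x, f x = 1 → ρ x = 1) :
    ∃ ρ' : Representation ℂ H' V, ρ = ρ'.comp f := by
  refine ⟨(Units.coeHom _).comp (f.liftOfSurjective hf ⟨ρ.toHomUnits, fun x hx =>
    Units.ext (h x hx)⟩), MonoidHom.ext fun x => ?_⟩
  simp

lemma irr_of_comp {H H' : Type} [Group H] [Group H'] (f : H →* H') (hf : Function.Surjective f)
    (ρ : Representation ℂ H' V) (h : IsIrreducible (ρ.comp f)) : ρ.IsIrreducible := by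
  let e : Subrepresentation ρ ≃o Subrepresentation (ρ.comp f) :=
    { toFun := fun X => ⟨X.toSubmodule, fun g v hv => X.apply_mem_toSubmodule _ hv⟩
      invFun := fun X => ⟨X.toSubmodule, fun g v hv => by
        obtain ⟨g, rfl⟩ := hf g
        exact X.apply_mem_toSubmodule g hv⟩
      left_inv := fun _ => rfl
      right_inv := fun _ => rfl
      map_rel_iff' := Iff.rfl }
  exact e.isSimpleOrder

lemma Rad.map {S : I → I → Prop} {g : GL I O} (h : Rad S g) : Rad S (map φ g) := fun s t e => by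
  rw [Matrix.GeneralLinearGroup.map_apply, h s t e]
  simp [Matrix.one_apply]

lemma Rad.lift [IsLocalHom φ] (hφ : Function.Surjective φ) {S : I → I → Prop} {g : GL I R}
    (h : Rad S g) : ∃ g', Rad S g' ∧ Matrix.GeneralLinearGroup.map φ g' = g := by
  let A : Matrix I I O := Matrix.of fun s t =>
    if S s t then Function.surjInv hφ (g.val s t) else (1 : Matrix I I O) s t
  have h1 : φ.mapMatrix A = g.val := by
    ext s t
    by_cases e : S s t
    · simp [A, e, Function.surjInv_eq hφ]
    · simp [A, e, h s t e, Matrix.one_apply]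
  have h2 : IsUnit A := (Matrix.isUnit_iff_isUnit_det _).2 <| (isUnit_map_iff φ _).1 <| by
    rw [RingHom.map_det, h1]
    exact (Matrix.isUnit_iff_isUnit_det _).1 g.isUnit
  exact ⟨h2.unit, fun s t e => if_neg e, Units.ext h1⟩

lemma levi_iff {g : GL I O} : g ∈ Levi O b ↔ Rad (fun s t => b s = b t) g :=
  forall₃_congr fun s t e => by rw [inD_one s t e]

/-- Reduction of the Levi subgroup. -/
def levm (φ : O →+* R) (b : I → B) : Levi O b →* Levi R b :=
  ((map φ).comp (Levi O b).subtype).codRestrict _ fun x => levi_iff.2 (levi_iff.1 x.2).map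

lemma levm_tw {x y : Levi O b} {w : Perm I} (h : ∀ s t, x.val.val s t = y.val.val (w s) (w t))
    (s t : I) : (levm φ b x).val.val s t = (levm φ b y).val.val (w s) (w t) := congrArg φ (h s t)

section

variable [IsLocalHom φ] (hφ : Function.Surjective φ)
include hφ

lemma map_surj : Function.Surjective (map (n := I) φ) := fun g => by
  obtain ⟨g', -, e⟩ := Rad.lift hφ (S := fun _ _ => True) (g := g) fun _ _ e => absurd trivial e
  exact ⟨g', e⟩

lemma levm_surj : Function.Surjective (levm φ b) := fun g => by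
  obtain ⟨g', h, e⟩ := (levi_iff.1 g.2).lift hφ
  exact ⟨⟨g', levi_iff.2 h⟩, Subtype.ext e⟩

lemma tw_lift {w : Perm I} (hw : Blk b w) {p : Levi R b → Levi R b → Prop}
    (h : ∀ x y : Levi O b, (∀ s t, x.val s t = y.val (w s) (w t)) → p (levm φ b x) (levm φ b y))
    (x y : Levi R b) (e : ∀ s t, x.val s t = y.val (w s) (w t)) : p x y := by
  obtain ⟨y, rfl⟩ := levm_surj hφ y
  rw [levi_ext (y := levm φ b (tw hw y)) fun s t => (e s t).trans (levm_tw (tw_apply hw y) s t).symm]
  exact h _ _ (tw_apply hw y)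

lemma stab_comp (lam : Representation ℂ (Levi R b) U) :
    Stab (O := O) (lam.comp (levm φ b)) = Stab lam := by
  ext π
  refine exists_congr fun w => and_congr_right fun h => exists_congr fun e => ?_
  exact ⟨tw_lift hφ (p := fun x y => ∀ u, e (lam x u) = lam y (e u))
    fun s t => by rw [h, h, π.injective.eq_iff], fun h x y e' => h _ _ (levm_tw e')⟩

variable [LT B]

lemma fixed_comp (σ : Representation ℂ (GL I R) V) (v : V) :
    Fixed b (O := O) (σ.comp (map φ)) v ↔ Fixed b σ v := by
  refine ⟨fun h g hg => ?_, fun h g hg => h _ hg.map⟩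
  obtain ⟨g, hg', rfl⟩ := hg.lift hφ
  exact h g hg'

lemma homP_comp (lam : Representation ℂ (Levi R b) U) (σ : Representation ℂ (GL I R) V)
    {w : Perm I} (hw : Blk b w) :
    HomP (O := O) (lam.comp (levm φ b)) (σ.comp (map φ)) w = HomP lam σ w := by
  ext T
  exact and_congr (forall_congr' fun u => fixed_comp hφ σ _)
    ⟨tw_lift hφ (p := fun x y => ∀ u, T (lam x u) = σ y (T u)) hw,
      fun h x y e' => h _ _ (levm_tw e')⟩

lemma pure_comp {lam : Representation ℂ (Levi R b) U} {σ : Representation ℂ (GL I R) V}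
    (h : Pure (O := O) (lam.comp (levm φ b)) (σ.comp (map φ))) : Pure lam σ := by
  refine ⟨h.1.imp fun v hv => ⟨hv.1, (fixed_comp hφ σ v).1 hv.2⟩, fun X h1 h2 h3 => ?_⟩
  obtain ⟨w, hw, T, hT, h4⟩ := h.2 X h1 (fun v hv => (fixed_comp hφ σ v).2 (h2 v hv))
    fun y => h3 (levm φ b y)
  exact ⟨w, hw, T, homP_comp hφ lam σ hw ▸ hT, h4⟩

end

theorem general_case [IsLocalRing O] [Fintype B] [Preorder B] (hb : Function.Surjective b)
    [FiniteDimensional ℂ U] (lam : Representation ℂ (Levi O b) U) (hi : lam.IsIrreducible)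
    (hl : Level (Levi O b).subtype lam) (hc : Cusp lam)
    (hq : 2 * (Fintype.card I * (Fintype.card I - 1)) * ((Stab lam).ncard + 1) + 1 <
      Nat.card (ResidueField O))
    {J : Type} [Fintype J] {V : J → Type} [∀ j, AddCommGroup (V j)] [∀ j, Module ℂ (V j)]
    [∀ j, FiniteDimensional ℂ (V j)] (σ : ∀ j, Representation ℂ (GL I O) (V j))
    (hσ : ∀ j, (σ j).IsIrreducible ∧ Level (MonoidHom.id _) (σ j) ∧ Pure lam (σ j))
    (hne : ∀ i j, Nonempty ((σ i).Equiv (σ j)) → i = j) :
    ∃ m : J → ℕ+, (∀ j w, Blk b w → finrank ℂ (HomP lam (σ j) w) = m j) ∧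
      ∑ j, (m j : ℕ) ^ 2 ≤ (Stab lam).ncard := by
  obtain ⟨a0, f0, l0⟩ := hl
  choose a1 f1 l1 using fun j => (hσ j).2.1
  have f2 : Finite (ResidueField O) := Nat.finite_of_card_ne_zero (by omega)
  let a : Option (Option J) → Ideal O := fun j => j.elim (maximalIdeal O) fun j => j.elim a0 a1
  have f3 : ∀ j, Finite (O ⧸ a j) := by
    rintro (_ | _ | j)
    exacts [f2, f0, f1 j]
  have f4 : Finite (O ⧸ ⨅ j, a j) := .of_injective _ (Ideal.quotientInfToPiQuotient_inj a)
  have : Nontrivial (O ⧸ ⨅ j, a j) := Ideal.Quotient.nontrivial_iff.2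
    (ne_top_of_le_ne_top (maximalIdeal.isMaximal O).ne_top (iInf_le a none))
  let φ := Ideal.Quotient.mk (⨅ j, a j)
  have hφ : Function.Surjective φ := Ideal.Quotient.mk_surjective
  have := IsLocalRing.of_surjective' φ hφ
  have := IsLocalHom.of_surjective φ hφ
  have := Fintype.ofFinite (GL I (O ⧸ ⨅ j, a j))
  have h1 : ∀ g : GL I O, map φ g = 1 → ∀ j s t, g s t - (1 : Matrix I I O) s t ∈ a j := by
    intro g e j s t
    refine iInf_le a j (Ideal.Quotient.eq.1 ?_)
    rw [← Matrix.GeneralLinearGroup.map_apply, e]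
    simp [Matrix.one_apply]
  obtain ⟨lam, rfl⟩ := descend _ (levm_surj hφ) lam fun x e =>
    l0 x (h1 x (congrArg Subtype.val e) (some none))
  choose σ' e using fun j => descend _ (map_surj hφ) (σ j) fun x e =>
    l1 j x (h1 x e (some (some j)))
  obtain rfl : σ = fun j => (σ' j).comp (map φ) := funext e
  have := irr_of_comp _ (levm_surj hφ) _ hi
  have := fun j => irr_of_comp _ (map_surj hφ) _ (hσ j).1
  have h2 : Nat.card (ResidueField O) = Nat.card (ResidueField (O ⧸ ⨅ j, a j)) :=
    Nat.card_eq_of_bijective (ResidueField.map φ) ⟨RingHom.injective _, fun x => by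
      obtain ⟨x, rfl⟩ := residue_surjective x
      obtain ⟨x, rfl⟩ := hφ x
      exact ⟨residue O x, rfl⟩⟩
  rw [stab_comp hφ, h2] at hq
  have : Finite (ResidueField (O ⧸ ⨅ j, a j)) := .of_surjective _ residue_surjective
  obtain ⟨m, m1, m2⟩ := finite_case lam hb (fun S hS u h => hc S hS u fun x hx => h _ hx.map) hq σ'
    (fun j => pure_comp hφ (hσ j).2.2) fun i j ⟨e⟩ => hne i j
      ⟨.mk e.toLinearEquiv fun g => e.toIntertwiningMap.isIntertwining' (map φ g)⟩
  exact ⟨m, fun j w hw => (congrArg (fun X : Submodule ℂ (U →ₗ[ℂ] V j) => finrank ℂ X)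
    (homP_comp hφ lam (σ' j) hw)).trans (m1 j w hw), (stab_comp hφ lam).symm ▸ m2⟩

end Pool.Agent.P.MP_7cb106_nt.Ty
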